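import Mathlib

set_option autoImplicit false

namespace Pool.Agent.Lib.Chud

open MvPolynomial

section Basic

variable {σ : Type*} {k : Type*} [CommRing k]

/-- translation `f(x) ↦ f(x + P)` -/
noncomputable def tau (P : σ → k) : MvPolynomial σ k →ₐ[k] MvPolynomial σ k :=
  aeval (fun i => X i + C (P i))

@[simp] theorem tau_X (P : σ → k) (i : σ) : tau P (X i) = X i + C (P i) := by simp [tau]

@[simp] theorem tau_C (P : σ → k) (a : k) : tau P (C a) = C a := by simp [tau]

theorem map_tau {K : Type*} [CommRing K] (φ : k →+* K) (P : σ → k) (f : MvPolynomial σ k) :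
    map φ (tau P f) = tau (fun i => φ (P i)) (map φ f) := by
  induction f using MvPolynomial.induction_on with
  | C a => simp
  | add p q hp hq => simp only [map_add, hp, hq]
  | mul_X p i hp => simp only [map_mul, hp, tau_X, map_X, map_add, map_C]

theorem tau_tau (P Q : σ → k) (f : MvPolynomial σ k) :
    tau P (tau Q f) = tau (fun i => P i + Q i) f := by
  induction f using MvPolynomial.induction_on with
  | C a => simp
  | add p q hp hq => simp only [map_add, hp, hq]
  | mul_X p i hp => simp only [map_mul, hp, tau_X, map_add, tau_C, C_add, add_assoc]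

theorem tau_zero (f : MvPolynomial σ k) : tau (fun _ => 0) f = f := by
  induction f using MvPolynomial.induction_on with
  | C a => simp
  | add p q hp hq => simp only [map_add, hp, hq]
  | mul_X p i hp => simp only [map_mul, hp, tau_X, map_zero, add_zero]

theorem tau_injective (P : σ → k) : Function.Injective (tau P : MvPolynomial σ k → _) := by
  intro f g h
  have h1 := congrArg (tau (fun i => - P i)) h
  rw [tau_tau, tau_tau] at h1
  simpa [tau_zero] using h1

/-- order at least `m` at the point `P` -/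
def OrdGE (P : σ → k) (m : ℕ) (f : MvPolynomial σ k) : Prop :=
  ∀ γ : σ →₀ ℕ, γ.degree < m → coeff γ (tau P f) = 0

/-- all exponents are at most `b` -/
def Bd (b : σ →₀ ℕ) (f : MvPolynomial σ k) : Prop := ∀ u, coeff u f ≠ 0 → u ≤ b

theorem Bd.mul {a b : σ →₀ ℕ} {f g : MvPolynomial σ k} (hf : Bd a f) (hg : Bd b g) :
    Bd (a + b) (f * g) := by
  classical
  intro u hu
  rw [coeff_mul] at hu
  obtain ⟨⟨x, y⟩, hxy, hne⟩ := Finset.exists_ne_zero_of_sum_ne_zero hu
  rw [Finset.HasAntidiagonal.mem_antidiagonal] at hxy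
  simp only at hxy hne
  rw [← hxy]
  exact add_le_add (hf x (left_ne_zero_of_mul hne)) (hg y (right_ne_zero_of_mul hne))

theorem Bd.coeff_mul {a b : σ →₀ ℕ} {f g : MvPolynomial σ k} (hf : Bd a f) (hg : Bd b g) :
    coeff (a + b) (f * g) = coeff a f * coeff b g := by
  classical
  rw [MvPolynomial.coeff_mul, Finset.sum_eq_single (a, b)]
  · rintro ⟨x, y⟩ hxy hne
    rw [Finset.HasAntidiagonal.mem_antidiagonal] at hxy
    simp only at hxy ⊢
    by_contra h
    have h1 := hf x (left_ne_zero_of_mul h)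
    have h2 := hg y (right_ne_zero_of_mul h)
    apply hne
    have h3 : x = a := by
      apply le_antisymm h1
      by_contra hlt
      obtain ⟨i, hi⟩ : ∃ i, x i < a i := by
        by_contra hcon
        push Not at hcon
        exact hlt hcon
      have h4 := DFunLike.congr_fun hxy i
      have h5 := h2 i
      simp only [Finsupp.coe_add, Pi.add_apply] at h4
      omega
    subst h3
    have h4 : y = b := add_left_cancel hxy
    rw [h4]
  · intro h
    exfalso
    apply h
    rw [Finset.HasAntidiagonal.mem_antidiagonal]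

theorem tau_monomial (P : σ → k) (b : σ →₀ ℕ) :
    Bd b (tau P (monomial b (1 : k))) ∧ coeff b (tau P (monomial b (1 : k))) = 1 := by
  classical
  induction b using Finsupp.induction_linear with
  | zero =>
    have h : tau P (monomial (0 : σ →₀ ℕ) (1 : k)) = 1 := by
      have : (monomial (0 : σ →₀ ℕ) (1 : k)) = 1 := rfl
      rw [this, map_one]
    rw [h]
    refine ⟨?_, by simp⟩
    intro u hu
    rw [coeff_one] at hu
    split_ifs at hu with h1
    · exact h1.symm.le
    · exact absurd rfl hu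
  | add f g hf hg =>
    have h : monomial (f + g) (1 : k) = monomial f 1 * monomial g 1 := by
      rw [monomial_mul, one_mul]
    rw [h, map_mul]
    refine ⟨hf.1.mul hg.1, ?_⟩
    rw [hf.1.coeff_mul hg.1, hf.2, hg.2, one_mul]
  | single i n =>
    induction n with
    | zero =>
      have h : tau P (monomial (Finsupp.single i 0) (1 : k)) = 1 := by
        rw [Finsupp.single_zero]
        have : (monomial (0 : σ →₀ ℕ) (1 : k)) = 1 := rfl
        rw [this, map_one]
      rw [h]
      refine ⟨?_, by simp⟩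
      intro u hu
      rw [coeff_one] at hu
      split_ifs at hu with h1
      · rw [Finsupp.single_zero]; exact h1.symm.le
      · exact absurd rfl hu
    | succ n ih =>
      have h : monomial (Finsupp.single i (n + 1)) (1 : k) =
          monomial (Finsupp.single i n) 1 * X i := by
        rw [X, monomial_mul, one_mul, Finsupp.single_add]
      have h1 : Bd (Finsupp.single i 1) (X i + C (P i) : MvPolynomial σ k) := by
        intro u hu
        rw [coeff_add, coeff_X, coeff_C] at hu
        by_cases h2 : Finsupp.single i 1 = u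
        · exact h2.symm.le
        · rw [if_neg h2] at hu
          by_cases h3 : 0 = u
          · rw [← h3]; exact zero_le
          · rw [if_neg h3] at hu
            simp at hu
      have h2 : coeff (Finsupp.single i 1) (X i + C (P i) : MvPolynomial σ k) = 1 := by
        rw [coeff_add, coeff_X, coeff_C, if_pos rfl, if_neg, add_zero]
        intro h3
        have := DFunLike.congr_fun h3 i
        simp at this
      rw [h, map_mul, tau_X, Finsupp.single_add]
      refine ⟨ih.1.mul h1, ?_⟩
      rw [ih.1.coeff_mul h1, ih.2, h2, one_mul]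

end Basic

section Comp

variable {σ : Type*} {k : Type*} [CommRing k]

/-- remainder exponents -/
noncomputable def rmd (q : ℕ) (γ : σ →₀ ℕ) : σ →₀ ℕ :=
  γ.mapRange (fun x => x % q) (Nat.zero_mod q)

/-- quotient exponents -/
noncomputable def quo (q : ℕ) (γ : σ →₀ ℕ) : σ →₀ ℕ :=
  γ.mapRange (fun x => x / q) (Nat.zero_div q)

theorem rmd_apply (q : ℕ) (γ : σ →₀ ℕ) (i : σ) : rmd q γ i = γ i % q := rfl

theorem quo_apply (q : ℕ) (γ : σ →₀ ℕ) (i : σ) : quo q γ i = γ i / q := rfl

theorem rmd_add_quo (q : ℕ) (γ : σ →₀ ℕ) : rmd q γ + q • quo q γ = γ := by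
  ext i
  simp only [Finsupp.coe_add, Finsupp.coe_smul, Pi.add_apply, Pi.smul_apply, smul_eq_mul,
    rmd_apply, quo_apply, Nat.mod_add_div]

theorem rmd_lt {q : ℕ} (hq : 0 < q) (γ : σ →₀ ℕ) (i : σ) : rmd q γ i < q := by
  rw [rmd_apply]
  exact Nat.mod_lt _ hq

theorem rmd_eq {q : ℕ} {a : σ →₀ ℕ} (ha : ∀ i, a i < q) (δ : σ →₀ ℕ) :
    rmd q (a + q • δ) = a := by
  ext i
  simp only [Finsupp.coe_add, Finsupp.coe_smul, Pi.add_apply, Pi.smul_apply, smul_eq_mul,
    rmd_apply, Nat.add_mul_mod_self_left, Nat.mod_eq_of_lt (ha i)]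

theorem quo_eq {q : ℕ} {a : σ →₀ ℕ} (ha : ∀ i, a i < q) (δ : σ →₀ ℕ) :
    quo q (a + q • δ) = δ := by
  ext i
  have hq : 0 < q := lt_of_le_of_lt (Nat.zero_le _) (ha i)
  simp only [quo_apply, Finsupp.coe_add, Finsupp.coe_smul, Pi.add_apply,
    Pi.smul_apply, smul_eq_mul]
  rw [Nat.add_mul_div_left _ _ hq, Nat.div_eq_of_lt (ha i), zero_add]

theorem box_unique {q : ℕ} {a b δ ε : σ →₀ ℕ} (ha : ∀ i, a i < q) (hb : ∀ i, b i < q)
    (h : a + q • δ = b + q • ε) : a = b ∧ δ = ε := by
  constructor
  · rw [← rmd_eq ha δ, h, rmd_eq hb]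
  · rw [← quo_eq ha δ, h, quo_eq hb]

open Classical in
/-- the component of `f` of exponents congruent to `a` -/
noncomputable def cmp (q : ℕ) (a : σ →₀ ℕ) (f : MvPolynomial σ k) : MvPolynomial σ k :=
  ∑ γ ∈ f.support with rmd q γ = a, monomial (quo q γ) (coeff γ f)

theorem coeff_cmp {q : ℕ} {a : σ →₀ ℕ} (ha : ∀ i, a i < q)
    (f : MvPolynomial σ k) (δ : σ →₀ ℕ) :
    coeff δ (cmp q a f) = coeff (a + q • δ) f := by
  classical
  unfold cmp
  rw [coeff_sum, Finset.sum_eq_single (a + q • δ)]
  · rw [coeff_monomial, if_pos (quo_eq ha δ)]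
  · intro γ hγ hne
    rw [Finset.mem_filter] at hγ
    rw [coeff_monomial, if_neg]
    intro h
    apply hne
    rw [← rmd_add_quo q γ, hγ.2, h]
  · intro h
    rw [coeff_monomial, if_pos (quo_eq ha δ)]
    by_contra hne
    apply h
    rw [Finset.mem_filter]
    exact ⟨mem_support_iff.2 hne, rmd_eq ha δ⟩

theorem coeff_mul_expand {q : ℕ} (hq : 0 < q) {h G : MvPolynomial σ k}
    (hh : ∀ u, coeff u h ≠ 0 → ∀ i, u i < q) {r : σ →₀ ℕ} (hr : ∀ i, r i < q) (δ : σ →₀ ℕ) :
    coeff (r + q • δ) (h * expand q G) = coeff r h * coeff δ G := by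
  classical
  rw [MvPolynomial.coeff_mul, Finset.sum_eq_single (r, q • δ)]
  · rw [coeff_expand_smul q hq.ne']
  · rintro ⟨x, y⟩ hxy hne
    rw [Finset.HasAntidiagonal.mem_antidiagonal] at hxy
    simp only at hxy ⊢
    by_contra hcon
    have h1 := hh x (left_ne_zero_of_mul hcon)
    have h2 : ∀ i, q ∣ y i := by
      intro i
      by_contra hnd
      exact (right_ne_zero_of_mul hcon) (coeff_expand_of_not_dvd G hnd)
    have h3 : y = q • quo q y := by
      ext i
      simp only [quo_apply, Finsupp.coe_smul, Pi.smul_apply, smul_eq_mul]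
      exact (Nat.mul_div_cancel' (h2 i)).symm
    rw [h3] at hxy
    obtain ⟨h4, h5⟩ := box_unique h1 hr hxy
    apply hne
    rw [h4, h3, h5]
  · intro h
    exfalso
    apply h
    rw [Finset.HasAntidiagonal.mem_antidiagonal]

theorem coeff_monomial_box {q : ℕ} {a : σ →₀ ℕ} (ha : ∀ i, a i < q) (u : σ →₀ ℕ)
    (hu : coeff u (monomial a (1 : k)) ≠ 0) (i : σ) : u i < q := by
  classical
  rw [coeff_monomial] at hu
  split_ifs at hu with h
  · rw [← h]; exact ha i
  · exact absurd rfl hu

open Classical in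
theorem cmp_sum {q : ℕ} (hq : 0 < q) (f : MvPolynomial σ k) :
    f = ∑ a ∈ f.support.image (rmd q), monomial a 1 * expand q (cmp q a f) := by
  ext γ
  rw [← rmd_add_quo q γ, coeff_sum]
  have hbox : ∀ a ∈ f.support.image (rmd q), ∀ i, a i < q := by
    intro a ha i
    rw [Finset.mem_image] at ha
    obtain ⟨b, _, rfl⟩ := ha
    exact rmd_lt hq b i
  have h1 : ∀ a ∈ f.support.image (rmd q),
      coeff (rmd q γ + q • quo q γ) (monomial a (1 : k) * expand q (cmp q a f)) =
      if a = rmd q γ then coeff (rmd q γ + q • quo q γ) f else 0 := by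
    intro a ha
    rw [coeff_mul_expand hq (fun u hu i => coeff_monomial_box (hbox a ha) u hu i) (rmd_lt hq γ),
      coeff_monomial, coeff_cmp (hbox a ha)]
    by_cases h : a = rmd q γ
    · simp [h]
    · simp [h]
  rw [Finset.sum_congr rfl h1, Finset.sum_ite_eq']
  split_ifs with h
  · rfl
  · by_contra hne
    apply h
    rw [Finset.mem_image]
    exact ⟨_, mem_support_iff.2 hne, rmd_eq (rmd_lt hq γ) _⟩

theorem cmp_eq_zero {q : ℕ} {a : σ →₀ ℕ} (ha : ∀ i, a i < q) {f : MvPolynomial σ k}
    (h : ∀ γ ∈ f.support, rmd q γ ≠ a) : cmp q a f = 0 := by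
  ext δ
  rw [coeff_cmp ha, coeff_zero]
  by_contra hne
  exact h _ (mem_support_iff.2 hne) (rmd_eq ha δ)

theorem tau_expand {p : ℕ} [Fact p.Prime] [CharP k p] (e : ℕ) (P : σ → k)
    (G : MvPolynomial σ k) :
    tau P (expand (p ^ e) G) = expand (p ^ e) (tau (fun i => P i ^ p ^ e) G) := by
  induction G using MvPolynomial.induction_on with
  | C a => simp [expand_C]
  | add p q hp hq => simp only [map_add, hp, hq]
  | mul_X g i hp =>
    simp only [map_mul, hp, tau_X, map_add, expand_X, expand_C, map_pow]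
    rw [add_pow_char_pow]

theorem cmp_tau {p : ℕ} [Fact p.Prime] [CharP k p] (e : ℕ) (P : σ → k)
    {a : σ →₀ ℕ} (ha : ∀ i, a i < p ^ e) {f : MvPolynomial σ k}
    (hmax : ∀ γ ∈ f.support, a ≤ rmd (p ^ e) γ → rmd (p ^ e) γ = a) :
    cmp (p ^ e) a (tau P f) = tau (fun i => P i ^ p ^ e) (cmp (p ^ e) a f) := by
  classical
  have hq : 0 < p ^ e := pow_pos (Fact.out (p := p.Prime)).pos _
  ext δ
  rw [coeff_cmp ha]
  have hbox : ∀ b ∈ f.support.image (rmd (p ^ e)), ∀ i, b i < p ^ e := by
    intro b hb i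
    rw [Finset.mem_image] at hb
    obtain ⟨c, _, rfl⟩ := hb
    exact rmd_lt hq c i
  conv_lhs => rw [cmp_sum hq f, map_sum]
  rw [coeff_sum]
  have h1 : ∀ b ∈ f.support.image (rmd (p ^ e)),
      coeff (a + (p ^ e) • δ) (tau P (monomial b (1 : k) * expand (p ^ e) (cmp (p ^ e) b f))) =
      if b = a then coeff δ (tau (fun i => P i ^ p ^ e) (cmp (p ^ e) a f)) else 0 := by
    intro b hb
    rw [map_mul, tau_expand, coeff_mul_expand hq _ ha]
    · by_cases h : b = a
      · subst h
        rw [if_pos rfl, (tau_monomial P b).2, one_mul]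
      · rw [if_neg h]
        have h2 : coeff a (tau P (monomial b (1 : k))) = 0 := by
          by_contra hne
          have h3 := (tau_monomial P b).1 a hne
          rw [Finset.mem_image] at hb
          obtain ⟨c, hc, rfl⟩ := hb
          exact h (hmax c hc h3)
        rw [h2, zero_mul]
    · intro u hu i
      exact lt_of_le_of_lt ((tau_monomial P b).1 u hu i) (hbox b hb i)
  rw [Finset.sum_congr rfl h1, Finset.sum_ite_eq']
  split_ifs with h
  · rfl
  · have h2 : cmp (p ^ e) a f = 0 := by
      apply cmp_eq_zero ha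
      intro γ hγ hne
      apply h
      rw [Finset.mem_image]
      exact ⟨γ, hγ, hne⟩
    rw [h2, map_zero, coeff_zero]

end Comp

section Top

variable {σ : Type*} [Fintype σ] {k : Type*} [Field k] [IsAlgClosed k]

/-- the top lemma: a nonzero polynomial has a Hasse derivative of order `n ≤ N (q - 1)` that is a
`q`-th power of some `g`; here `g` is recorded with its degree and its orders. -/
theorem exists_top {p : ℕ} [Fact p.Prime] [CharP k p] (e : ℕ) {f : MvPolynomial σ k}
    (hf : f ≠ 0) : ∃ (g : MvPolynomial σ k) (n : ℕ), g ≠ 0 ∧ n ≤ Fintype.card σ * (p ^ e - 1) ∧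
      p ^ e * g.totalDegree + n ≤ f.totalDegree ∧
      ∀ (P : σ → k) (M j : ℕ), OrdGE P M f → n + p ^ e * j < M + p ^ e → OrdGE P j g := by
  classical
  have hq : 0 < p ^ e := pow_pos (Fact.out (p := p.Prime)).pos _
  obtain ⟨γ₀, hγ₀, hmax⟩ := Finset.exists_max_image f.support (fun γ => (rmd (p ^ e) γ).degree)
    (by rwa [Finset.nonempty_iff_ne_empty, Ne, support_eq_empty])
  set a := rmd (p ^ e) γ₀ with ha_def
  have ha : ∀ i, a i < p ^ e := rmd_lt hq γ₀
  have hmax' : ∀ γ ∈ f.support, a ≤ rmd (p ^ e) γ → rmd (p ^ e) γ = a := by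
    intro γ hγ hle
    obtain ⟨c, hc⟩ := exists_add_of_le hle
    have h1 := hmax γ hγ
    rw [hc, map_add] at h1
    have h2 : c.degree = 0 := by omega
    rw [Finsupp.degree_eq_zero_iff] at h2
    rw [hc, h2, add_zero]
  have hfrob : Function.Surjective (iterateFrobenius k p e) := by
    intro c
    obtain ⟨b, hb⟩ := IsAlgClosed.exists_pow_nat_eq c hq
    exact ⟨b, by rw [iterateFrobenius_def]; exact hb⟩
  have hfinj : Function.Injective (iterateFrobenius k p e) := RingHom.injective _
  obtain ⟨g, hg⟩ := MvPolynomial.map_surjective (σ := σ) _ hfrob (cmp (p ^ e) a f)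
  have hcoef : ∀ δ, coeff δ g ≠ 0 ↔ coeff (a + (p ^ e) • δ) f ≠ 0 := by
    intro δ
    rw [← coeff_cmp ha, ← hg, coeff_map, map_ne_zero]
  have hg0 : g ≠ 0 := by
    intro h0
    have h1 := hcoef (quo (p ^ e) γ₀)
    rw [ha_def, rmd_add_quo, h0, coeff_zero] at h1
    exact h1.2 (mem_support_iff.1 hγ₀) rfl
  refine ⟨g, a.degree, hg0, ?_, ?_, ?_⟩
  · rw [Finsupp.degree_eq_sum]
    calc ∑ i, a i ≤ ∑ _i : σ, (p ^ e - 1) := Finset.sum_le_sum (fun i _ => by
          have := ha i; omega)
      _ = Fintype.card σ * (p ^ e - 1) := by simp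
  · obtain ⟨δ, hδ, hdeg⟩ : ∃ δ ∈ g.support, g.totalDegree = δ.degree := by
      obtain ⟨δ, hδ, h⟩ := Finset.exists_mem_eq_sup g.support
        (by rwa [Finset.nonempty_iff_ne_empty, Ne, support_eq_empty])
        (fun s => s.sum fun _ e => e)
      exact ⟨δ, hδ, h⟩
    have h1 := (hcoef δ).1 (mem_support_iff.1 hδ)
    have h2 := le_totalDegree (mem_support_iff.2 h1)
    have h3 : ((a + (p ^ e) • δ).sum fun _ e => e) = (a + (p ^ e) • δ).degree := rfl
    rw [h3, map_add, map_nsmul, smul_eq_mul] at h2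
    rw [hdeg]
    omega
  · intro P M j hord hM δ hδ
    have h1 : map (iterateFrobenius k p e) (tau P g) = cmp (p ^ e) a (tau P f) := by
      rw [cmp_tau e P ha hmax', map_tau, hg]
      rfl
    apply hfinj
    rw [map_zero, ← coeff_map, h1, coeff_cmp ha]
    apply hord
    rw [map_add, map_nsmul, smul_eq_mul]
    have h2 : δ.degree + 1 ≤ j := hδ
    have h3 : p ^ e * (δ.degree + 1) ≤ p ^ e * j := Nat.mul_le_mul_left _ h2
    have h4 : p ^ e * (δ.degree + 1) = p ^ e * δ.degree + p ^ e := by ring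
    omega

end Top

end Pool.Agent.Lib.Chud
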