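import Mathlib
import Pool.Agent.Lib.Chud.Cmp
import Pool.Agent.Lib.P5c592f.PPow

set_option autoImplicit false

namespace Pool.Agent.Lib.Chud

open MvPolynomial Pool.Agent.Lib.P5c592f

section

variable {σ : Type*} {k : Type*} [Field k]

theorem totalDegree_pow_dom (f : MvPolynomial σ k) (n : ℕ) :
    (f ^ n).totalDegree = n * f.totalDegree := by
  rcases Nat.eq_zero_or_pos n with rfl | hn
  · simp
  by_cases h0 : f = 0
  · subst h0
    rw [zero_pow hn.ne']
    simp
  clear hn
  induction n with
  | zero => simp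
  | succ n ih =>
    rw [pow_succ, totalDegree_mul_of_isDomain (pow_ne_zero _ h0) h0, ih]
    ring

theorem ordGE_iff (P : σ → k) (m : ℕ) (f : MvPolynomial σ k) :
    OrdGE P m f ↔ (m : ℕ∞) ≤ lord (tau P f) := (le_lord_iff _ _).symm

theorem OrdGE.mono {P : σ → k} {m n : ℕ} {f : MvPolynomial σ k} (h : OrdGE P m f) (hn : n ≤ m) :
    OrdGE P n f := fun γ hγ => h γ (lt_of_lt_of_le hγ hn)

theorem OrdGE.zero {P : σ → k} {f : MvPolynomial σ k} : OrdGE P 0 f :=
  fun γ hγ => absurd hγ (Nat.not_lt_zero _)

theorem OrdGE.mul {P : σ → k} {m n : ℕ} {f g : MvPolynomial σ k} (hf : OrdGE P m f)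
    (hg : OrdGE P n g) : OrdGE P (m + n) (f * g) := by
  rw [ordGE_iff] at hf hg ⊢
  rw [map_mul, lord_mul]
  push_cast
  exact add_le_add hf hg

theorem OrdGE.pow {P : σ → k} {m : ℕ} {f : MvPolynomial σ k} (hf : OrdGE P m f)
    (n : ℕ) : OrdGE P (n * m) (f ^ n) := by
  rw [ordGE_iff] at hf ⊢
  rw [map_pow, lord_pow]
  push_cast
  exact mul_le_mul_right hf _

theorem tau_pderiv (P : σ → k) (l : σ) (f : MvPolynomial σ k) :
    tau P (pderiv l f) = pderiv l (tau P f) := by
  classical
  induction f using MvPolynomial.induction_on with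
  | C a => simp
  | add p q hp hq => simp only [map_add, hp, hq]
  | mul_X g i hp =>
    rw [Derivation.leibniz, map_mul, Derivation.leibniz, map_add, smul_eq_mul, smul_eq_mul,
      map_mul, map_mul, hp, tau_X, map_add, smul_eq_mul, smul_eq_mul]
    by_cases h : i = l
    · subst h
      simp
    · simp [pderiv_X_of_ne h]

theorem OrdGE.pderiv {P : σ → k} {m : ℕ} {f : MvPolynomial σ k} (h : OrdGE P (m + 1) f) (l : σ) :
    OrdGE P m (pderiv l f) := by
  classical
  intro γ hγ
  rw [tau_pderiv, coeff_pderiv, h, zero_mul]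
  rw [map_add, Finsupp.degree_single]
  omega

theorem degree_le_of_coeff_ne {f : MvPolynomial σ k} {γ : σ →₀ ℕ} (h : coeff γ f ≠ 0) :
    γ.degree ≤ f.totalDegree := by
  have h2 := le_totalDegree (mem_support_iff.2 h)
  exact h2

theorem exists_degree_eq {f : MvPolynomial σ k} (h : f ≠ 0) :
    ∃ γ, coeff γ f ≠ 0 ∧ f.totalDegree = γ.degree := by
  classical
  obtain ⟨δ, hδ, h⟩ := Finset.exists_mem_eq_sup f.support
        (by rwa [Finset.nonempty_iff_ne_empty, Ne, support_eq_empty])
        (fun s => s.sum fun _ e => e)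
  exact ⟨δ, mem_support_iff.1 hδ, h⟩

theorem totalDegree_pderiv {f : MvPolynomial σ k} {l : σ} (h : pderiv l f ≠ 0) :
    (pderiv l f).totalDegree + 1 ≤ f.totalDegree := by
  classical
  obtain ⟨γ, hγ, hd⟩ := exists_degree_eq h
  rw [coeff_pderiv] at hγ
  have h1 := degree_le_of_coeff_ne (left_ne_zero_of_mul hγ)
  rw [map_add, Finsupp.degree_single] at h1
  omega

theorem exists_pow_of_pderiv' [IsAlgClosed k] {p : ℕ} [Fact p.Prime] [CharP k p]
    {F : MvPolynomial σ k} (h : ∀ l, pderiv l F = 0) :
    ∃ g : MvPolynomial σ k, F = g ^ p := by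
  classical
  have hprime : p.Prime := Fact.out
  have hdvd : ∀ γ ∈ F.support, ∀ l, p ∣ γ l := by
    intro γ hγ l
    rw [← CharP.cast_eq_zero_iff k p]
    exact support_dvd_of_pderiv h γ (MvPolynomial.mem_support_iff.1 hγ) l
  have hroot : ∀ c : k, ∃ b, b ^ p = c := fun c => IsAlgClosed.exists_pow_nat_eq c hprime.pos
  choose r hr using hroot
  refine ⟨∑ γ ∈ F.support, monomial (γ.mapRange (fun a => a / p) (by simp)) (r (F.coeff γ)), ?_⟩
  rw [sum_pow_char p]
  conv_lhs => rw [F.as_sum]
  apply Finset.sum_congr rfl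
  intro γ hγ
  rw [monomial_pow, hr]
  have h5 : γ = p • (γ.mapRange (fun a => a / p) (by simp)) := by
    ext l
    simp only [Finsupp.coe_smul, Pi.smul_apply, Finsupp.mapRange_apply, smul_eq_mul]
    exact (Nat.mul_div_cancel' (hdvd γ hγ l)).symm
  rw [← h5]

/-- a nonconstant polynomial has a nonzero derived polynomial of smaller degree whose orders drop
by at most one -/
theorem exists_derived [IsAlgClosed k] {p : ℕ} [Fact p.Prime] [CharP k p] :
    ∀ (d : ℕ) (f : MvPolynomial σ k), f.totalDegree = d → 1 ≤ d →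
      ∃ f' : MvPolynomial σ k, f' ≠ 0 ∧ f'.totalDegree + 1 ≤ d ∧
        ∀ (P : σ → k) (m : ℕ), OrdGE P (m + 1) f → OrdGE P m f' := by
  intro d
  induction d using Nat.strong_induction_on with
  | _ d ih =>
    intro f hfd hd
    by_cases hp : ∀ l, pderiv l f = 0
    · have hprime : p.Prime := Fact.out
      obtain ⟨g, rfl⟩ := exists_pow_of_pderiv' (p := p) hp
      have hp2 := hprime.two_le
      rw [totalDegree_pow_dom] at hfd
      have hg1 : 1 ≤ g.totalDegree := by
        by_contra h
        have : g.totalDegree = 0 := by omega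
        rw [this] at hfd
        omega
      have hg0 : g ≠ 0 := by
        rintro rfl
        simp at hg1
      obtain ⟨g', hg'0, hg'd, hg'o⟩ := ih g.totalDegree (by nlinarith) g rfl hg1
      refine ⟨g ^ (p - 1) * g', mul_ne_zero (pow_ne_zero _ hg0) hg'0, ?_, ?_⟩
      · rw [totalDegree_mul_of_isDomain (pow_ne_zero _ hg0) hg'0, totalDegree_pow_dom,
          ← hfd]
        obtain ⟨q, rfl⟩ : ∃ q, p = q + 1 := ⟨p - 1, by omega⟩
        simp only [Nat.add_sub_cancel]
        nlinarith
      · intro P m h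
        rw [ordGE_iff, map_pow, lord_pow] at h
        have hne : lord (tau P g) ≠ ⊤ := by
          rw [Ne, lord_eq_top_iff]
          intro h0
          apply hg0
          apply tau_injective P
          rw [h0, map_zero]
        obtain ⟨o, ho⟩ := ENat.ne_top_iff_exists.1 hne
        rw [← ho] at h
        have h1 : m + 1 ≤ p * o := by exact_mod_cast h
        have ho1 : 1 ≤ o := by
          by_contra hlt
          have : o = 0 := by omega
          subst this
          omega
        have h2 : OrdGE P o g := by rw [ordGE_iff, ← ho]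
        have h3 : OrdGE P (o - 1) g' := hg'o P (o - 1) (by
          have : o - 1 + 1 = o := by omega
          rwa [this])
        have h4 := (h2.pow (p - 1)).mul h3
        apply h4.mono
        obtain ⟨q, rfl⟩ : ∃ q, p = q + 1 := ⟨p - 1, by omega⟩
        simp only [Nat.add_sub_cancel]
        have h5 : (q + 1) * o = q * o + o := by ring
        omega
    · push Not at hp
      obtain ⟨l, hl⟩ := hp
      have h1 := totalDegree_pderiv hl
      exact ⟨pderiv l f, hl, by omega, fun P m h => h.pderiv l⟩

theorem OrdGE.const {P : σ → k} {f : MvPolynomial σ k} (hf : f ≠ 0) (hd : f.totalDegree = 0)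
    {m : ℕ} (h : OrdGE P m f) : m = 0 := by
  by_contra hm
  rw [totalDegree_eq_zero_iff_eq_C] at hd
  rw [hd] at h hf
  have h1 := h 0 (by simp; omega)
  rw [tau_C, coeff_zero_C] at h1
  apply hf
  rw [h1, C_0]

/-- if every nonzero polynomial with orders at least `μ` on the points has degree at least `A`,
then every nonzero polynomial with orders at least `μ + j` has degree at least `A + j` -/
theorem degree_add [IsAlgClosed k] {p : ℕ} [Fact p.Prime] [CharP k p] {ι : Type*} [Nonempty ι]
    (S : ι → σ → k) (μ : ι → ℕ) (A : ℕ)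
    (hA : ∀ g : MvPolynomial σ k, g ≠ 0 → (∀ i, OrdGE (S i) (μ i) g) → A ≤ g.totalDegree)
    (j : ℕ) : ∀ g : MvPolynomial σ k, g ≠ 0 → (∀ i, OrdGE (S i) (μ i + j) g) →
      A + j ≤ g.totalDegree := by
  induction j with
  | zero => simpa using hA
  | succ j ih =>
    intro g hg0 hg
    obtain ⟨i⟩ := ‹Nonempty ι›
    have hd : 1 ≤ g.totalDegree := by
      by_contra hlt
      have := (hg i).const hg0 (by omega)
      omega
    obtain ⟨g', h0, h1, h2⟩ := exists_derived (p := p) g.totalDegree g rfl hd
    have h3 := ih g' h0 (fun i => h2 _ _ (by rw [add_assoc]; exact hg i))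
    omega

end

end Pool.Agent.Lib.Chud
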