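import Mathlib
import Pool.Agent.Lib.Chud.Derive

set_option autoImplicit false

namespace Pool.Agent.Lib.Chud

open MvPolynomial Pool.Agent.Lib.P5c592f

section

variable {σ : Type*} [Fintype σ] {k : Type*} [Field k] [IsAlgClosed k]

/-- the `q`-power case of the Chudnovsky-Demailly bound in characteristic `p`, affine form -/
theorem charp_q {p : ℕ} [Fact p.Prime] [CharP k p] {ι : Type*} [Nonempty ι]
    (hN : 1 ≤ Fintype.card σ) (S : ι → σ → k) (μ : ι → ℕ) (hμ : ∀ i, 1 ≤ μ i) (m A : ℕ)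
    (hA : ∀ g : MvPolynomial σ k, g ≠ 0 → (∀ i, OrdGE (S i) (m * μ i) g) → A ≤ g.totalDegree)
    (e : ℕ) {f : MvPolynomial σ k} (hf : f ≠ 0)
    (hord : ∀ i, OrdGE (S i) ((m + Fintype.card σ - 1) * p ^ e * μ i) f) :
    p ^ e * (A + Fintype.card σ - 1) ≤ f.totalDegree := by
  obtain ⟨g, n, hg0, hn, hdeg, hgo⟩ := exists_top (p := p) e hf
  set N := Fintype.card σ with hNdef
  set q := p ^ e with hq_def
  have hq : 0 < q := pow_pos (Fact.out (p := p.Prime)).pos _
  have hn1 : q * (n / q) ≤ n := Nat.mul_div_le n q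
  have hn2 : n < q * (n / q) + q := by
    have := Nat.lt_div_mul_add (a := n) hq
    rwa [mul_comm] at this
  have hs : n / q < N := by
    rw [Nat.div_lt_iff_lt_mul hq]
    calc n ≤ N * (q - 1) := hn
      _ < N * q := Nat.mul_lt_mul_of_pos_left (by omega) (by omega)
  have h1 := degree_add (p := p) S (fun i => m * μ i) A hA (N - 1 - n / q) g hg0 (fun i => by
    apply hgo _ _ _ (hord i)
    have h2 : (m + N - 1) * q * μ i = q * (m * μ i) + q * ((N - 1) * μ i) := by
      have : m + N - 1 = m + (N - 1) := by omega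
      rw [this]; ring
    have h3 : q * ((N - 1) * 1) ≤ q * ((N - 1) * μ i) :=
      Nat.mul_le_mul_left _ (Nat.mul_le_mul_left _ (hμ i))
    have h4 : q * (m * μ i + (N - 1 - n / q)) + q * (n / q) = q * (m * μ i) + q * ((N - 1) * 1) := by
      rw [← mul_add, ← mul_add]
      congr 1
      omega
    rw [h2]
    omega)
  have h5 : q * (A + (N - 1 - n / q)) ≤ q * g.totalDegree := Nat.mul_le_mul_left _ h1
  have h6 : q * (A + (N - 1 - n / q)) + q * (n / q) = q * (A + N - 1) := by
    rw [← mul_add]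
    congr 1
    omega
  omega

/-- the Chudnovsky-Demailly bound in characteristic `p`, affine form -/
theorem charp_all {p : ℕ} [Fact p.Prime] [CharP k p] {ι : Type*} [Nonempty ι]
    (hN : 1 ≤ Fintype.card σ) (S : ι → σ → k) (μ : ι → ℕ) (hμ : ∀ i, 1 ≤ μ i) (m A : ℕ)
    (hA : ∀ g : MvPolynomial σ k, g ≠ 0 → (∀ i, OrdGE (S i) (m * μ i) g) → A ≤ g.totalDegree)
    (r : ℕ) {f : MvPolynomial σ k} (hf : f ≠ 0)
    (hord : ∀ i, OrdGE (S i) (r * (m + Fintype.card σ - 1) * μ i) f) :
    r * (A + Fintype.card σ - 1) ≤ f.totalDegree := by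
  rcases Nat.eq_zero_or_pos r with rfl | hr
  · simp
  by_contra hlt
  push Not at hlt
  set N := Fintype.card σ with hNdef
  set D := f.totalDegree with hD
  set e := r * D + 1 with he
  have hq : e < p ^ e := Nat.lt_pow_self (Fact.out (p := p.Prime)).one_lt
  set q := p ^ e with hq_def
  set s := (q + r - 1) / r with hs
  have hs1 : q ≤ s * r := by
    have h1 := Nat.lt_div_mul_add (a := q + r - 1) hr
    rw [← hs] at h1
    omega
  have hs2 : s * r ≤ q + r - 1 := Nat.div_mul_le_self _ _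
  have h1 := charp_q (p := p) hN S μ hμ m A hA e (f := f ^ s) (pow_ne_zero _ hf) (fun i => by
    apply ((hord i).pow s).mono
    calc (m + N - 1) * p ^ e * μ i ≤ (m + N - 1) * (s * r) * μ i :=
          Nat.mul_le_mul_right _ (Nat.mul_le_mul_left _ hs1)
      _ = s * (r * (m + N - 1) * μ i) := by ring)
  rw [totalDegree_pow_dom, ← hD] at h1
  -- q B ≤ s D
  have h2 : r * (q * (A + N - 1)) ≤ (q + r - 1) * D := by
    calc r * (q * (A + N - 1)) ≤ r * (s * D) := Nat.mul_le_mul_left _ h1
      _ = (s * r) * D := by ring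
      _ ≤ (q + r - 1) * D := Nat.mul_le_mul_right _ hs2
  have h3 : q * (D + 1) ≤ q * (r * (A + N - 1)) := Nat.mul_le_mul_left _ hlt
  have h4 : q * (r * (A + N - 1)) = r * (q * (A + N - 1)) := by ring
  have h5 : (q + r - 1) * D ≤ (q + r) * D := Nat.mul_le_mul_right _ (by omega)
  have h6 : q * (D + 1) = q * D + q := by ring
  have h7 : (q + r) * D = q * D + r * D := by ring
  omega

end

end Pool.Agent.Lib.Chud
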