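import Mathlib
import Pool.Agent.Lib.P5c592f.Loc

set_option autoImplicit false

namespace Pool.Agent.Lib.Chud

open MvPolynomial Pool.Agent.Lib.P5c592f

variable {k : Type*} [Field k] {n : ℕ} {i : Fin (n + 1)}

/-- local expansion at `v`: `F ↦ F(v + y)`. -/
noncomputable def phiI (i : Fin (n + 1)) (v : Fin (n + 1) → k) :
    MvPolynomial (Fin (n + 1)) k →ₐ[k] MvPolynomial (Fin n) k :=
  aeval (fun l => C (v l) + rho k i (X l))

@[simp] theorem phi_X_I (v : Fin (n + 1) → k) (l : Fin (n + 1)) :
    phiI i v (X l) = C (v l) + rho k i (X l) := by simp [phiI]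

/-- dual coordinates at `v`. -/
noncomputable def iotaI (i : Fin (n + 1)) (v : Fin (n + 1) → k) :
    MvPolynomial (Fin n) k →ₐ[k] MvPolynomial (Fin (n + 1)) k :=
  aeval (fun j => X (i.succAbove j)
    - C (v (i.succAbove j) / v i) * X i)

@[simp] theorem iota_X_I (v : Fin (n + 1) → k) (j : Fin n) :
    iotaI i v (X j) = X (i.succAbove j)
    - C (v (i.succAbove j) / v i) * X i := by simp [iotaI]

theorem phi_eq_I (v : Fin (n + 1) → k) (F : MvPolynomial (Fin (n + 1)) k) :
    phiI i v F = Polynomial.eval₂ (rho k i : MvPolynomial (Fin (n + 1)) k →+* _) 1 (T v F) := by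
  have h : (phiI i v : MvPolynomial (Fin (n + 1)) k →+* MvPolynomial (Fin n) k) =
      (Polynomial.eval₂RingHom (rho k i : MvPolynomial (Fin (n + 1)) k →+* _) 1).comp
        (T v : MvPolynomial (Fin (n + 1)) k →+* _) := by
    apply MvPolynomial.ringHom_ext
    · intro a
      simp
    · intro l
      simp [add_comm]
  exact congrArg (fun f => f F) h

theorem eq_eval₂_T_I {v : Fin (n + 1) → k} (hv : v i ≠ 0) (F : MvPolynomial (Fin (n + 1)) k) :
    F = Polynomial.eval₂ ((iotaI i v : MvPolynomial (Fin n) k →+* _).comp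
      (rho k i : MvPolynomial (Fin (n + 1)) k →+* _)) (C (1 / v i) * X i)
      (T v F) := by
  have hc := hv
  have h : RingHom.id (MvPolynomial (Fin (n + 1)) k) =
      (Polynomial.eval₂RingHom ((iotaI i v : MvPolynomial (Fin n) k →+* _).comp
      (rho k i : MvPolynomial (Fin (n + 1)) k →+* _))
        (C (1 / v i) * X i)).comp
        (T v : MvPolynomial (Fin (n + 1)) k →+* _) := by
    apply MvPolynomial.ringHom_ext
    · intro a
      simp
    · intro l
      refine Fin.succAboveCases i ?_ (fun j => ?_) l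
      · simp only [RingHom.id_apply, RingHom.comp_apply, RingHom.coe_coe, T_X,
          Polynomial.coe_eval₂RingHom, Polynomial.eval₂_add, Polynomial.eval₂_C,
          Polynomial.eval₂_mul, Polynomial.eval₂_X, rho_X_same, map_zero, zero_add]
        simp only [MvPolynomial.algHom_C, algebraMap_eq]
        rw [← mul_assoc, ← map_mul, mul_one_div_cancel hc, map_one, one_mul]
      · simp only [RingHom.id_apply, RingHom.comp_apply, RingHom.coe_coe, T_X,
          Polynomial.coe_eval₂RingHom, Polynomial.eval₂_add, Polynomial.eval₂_C,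
          Polynomial.eval₂_mul, Polynomial.eval₂_X, rho_X_succAbove, iota_X_I]
        simp only [MvPolynomial.algHom_C, algebraMap_eq]
        rw [← mul_assoc, ← map_mul, mul_one_div]
        ring
  exact congrArg (fun f => f F) h

theorem phi_eq_sum_I {d : ℕ} {F : MvPolynomial (Fin (n + 1)) k} (hF : F.IsHomogeneous d)
    (v : Fin (n + 1) → k) :
    phiI i v F = ∑ j ∈ Finset.range (d + 1), rho k i ((T v F).coeff j) := by
  rw [phi_eq_I, Polynomial.eval₂_eq_sum_range' _ (Nat.lt_succ_of_le (T_natDegree_le hF v))]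
  simp

theorem coeff_phi_I {d : ℕ} {F : MvPolynomial (Fin (n + 1)) k} (hF : F.IsHomogeneous d)
    (v : Fin (n + 1) → k) (γ : Fin n →₀ ℕ) (hγ : γ.degree ≤ d) :
    (phiI i v F).coeff γ = (rho k i ((T v F).coeff (d - γ.degree))).coeff γ := by
  rw [phi_eq_sum_I hF, MvPolynomial.coeff_sum]
  apply Finset.sum_eq_single_of_mem
  · simp
  · intro j hj hne
    rw [Finset.mem_range] at hj
    have h1 := rho_isHomogeneous (i := i) ((PH_T hF v j).1 (by omega))
    apply h1.coeff_eq_zero
    omega

theorem coeff_phi_of_gt_I {d : ℕ} {F : MvPolynomial (Fin (n + 1)) k} (hF : F.IsHomogeneous d)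
    (v : Fin (n + 1) → k) (γ : Fin n →₀ ℕ) (hγ : d < γ.degree) :
    (phiI i v F).coeff γ = 0 := by
  rw [phi_eq_sum_I hF, MvPolynomial.coeff_sum]
  apply Finset.sum_eq_zero
  intro j hj
  rw [Finset.mem_range] at hj
  have h1 := rho_isHomogeneous (i := i) ((PH_T hF v j).1 (by omega))
  apply h1.coeff_eq_zero
  omega

theorem iota_X_mem_I {v : Fin (n + 1) → k} (hv : v i ≠ 0) (j : Fin n) : iotaI i v (X j) ∈ Iv v := by
  apply Ideal.subset_span
  have hc := hv
  constructor
  · rw [iota_X_I]
    exact (isHomogeneous_X _ _).sub (isHomogeneous_C_mul_X _ _)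
  · rw [iota_X_I]
    simp only [map_sub, map_mul, eval_X, eval_C]
    field_simp
    ring

theorem iota_mem_pow_I {v : Fin (n + 1) → k} (hv : v i ≠ 0) (e : ℕ) (u : MvPolynomial (Fin n) k)
    (hu : u ∈ idealOfVars (Fin n) k ^ e) : iotaI i v u ∈ Iv v ^ e := by
  have h1 : (idealOfVars (Fin n) k).map (iotaI i v : MvPolynomial (Fin n) k →+* MvPolynomial (Fin (n + 1)) k) ≤ Iv v := by
    rw [idealOfVars, Ideal.map_span, Ideal.span_le]
    rintro _ ⟨_, ⟨j, rfl⟩, rfl⟩
    exact iota_X_mem_I hv j
  have h2 := Ideal.mem_map_of_mem (iotaI i v : MvPolynomial (Fin n) k →+* MvPolynomial (Fin (n + 1)) k) hu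
  rw [Ideal.map_pow] at h2
  exact Ideal.pow_right_mono h1 e h2

/-- key equivalence -/
theorem mem_Iv_pow_iff_I {v : Fin (n + 1) → k} (hv : v i ≠ 0) {d m : ℕ}
    {F : MvPolynomial (Fin (n + 1)) k} (hF : F.IsHomogeneous d) :
    F ∈ Iv v ^ m ↔ (m : ℕ∞) ≤ lord (phiI i v F) := by
  constructor
  · intro h
    rw [le_lord_iff_mem]
    have h1 : (Iv v).map (phiI i v : MvPolynomial (Fin (n + 1)) k →+* MvPolynomial (Fin n) k) ≤ idealOfVars (Fin n) k := by
      rw [Iv, Ideal.map_span, Ideal.span_le]
      rintro _ ⟨G, ⟨hG1, hG0⟩, rfl⟩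
      have : (phiI i v) G ∈ idealOfVars (Fin n) k ^ 1 := by
        rw [mem_pow_idealOfVars_iff']
        intro x hx
        have hx0 : x = 0 := by
          have : x.degree = 0 := by omega
          exact (Finsupp.degree_eq_zero_iff x).1 this
        subst hx0
        have h3 : ((MvPolynomial.constantCoeff (R := k) (σ := Fin n)).comp
            (phiI i v : MvPolynomial (Fin (n + 1)) k →+* _)) = MvPolynomial.eval v := by
          apply MvPolynomial.ringHom_ext
          · intro a; simp
          · intro l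
            refine Fin.succAboveCases i ?_ (fun j => ?_) l
            · simp
            · simp
        have h4 := congrArg (fun f => f G) h3
        simp only [RingHom.comp_apply, RingHom.coe_coe] at h4
        rw [hG0] at h4
        rw [← h4]
        rfl
      simpa using this
    have h2 := Ideal.mem_map_of_mem (phiI i v : MvPolynomial (Fin (n + 1)) k →+* MvPolynomial (Fin n) k) h
    rw [Ideal.map_pow] at h2
    exact Ideal.pow_right_mono h1 m h2
  · intro h
    rw [le_lord_iff] at h
    rw [eq_eval₂_T_I hv F, Polynomial.eval₂_eq_sum_range' _ (Nat.lt_succ_of_le (T_natDegree_le hF v))]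
    apply Ideal.sum_mem
    intro j hj
    rw [Finset.mem_range] at hj
    apply Ideal.mul_mem_right
    simp only [RingHom.comp_apply, RingHom.coe_coe]
    have h1 := rho_isHomogeneous (i := i) ((PH_T hF v j).1 (by omega))
    by_cases hm : m ≤ d - j
    · exact Ideal.pow_le_pow_right hm (iota_mem_pow_I hv _ _ (Pool.Agent.Lib.P5c592f.IsHomogeneous.mem_idealOfVars_pow h1))
    · have h0 : rho k i ((T v F).coeff j) = 0 := by
        ext γ
        by_cases hγ : γ.degree = d - j
        · have := coeff_phi_I (i := i) hF v γ (by omega)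
          rw [h γ (by omega)] at this
          have h5 : d - γ.degree = j := by omega
          rw [h5] at this
          rw [← this]; simp
        · rw [h1.coeff_eq_zero hγ]; simp
      rw [h0, map_zero]
      exact Ideal.zero_mem _

theorem constantCoeff_phi_I (v : Fin (n + 1) → k) (F : MvPolynomial (Fin (n + 1)) k) :
    MvPolynomial.constantCoeff (phiI i v F) = MvPolynomial.eval v F := by
  have h3 : ((MvPolynomial.constantCoeff (R := k) (σ := Fin n)).comp
      (phiI i v : MvPolynomial (Fin (n + 1)) k →+* _)) = MvPolynomial.eval v := by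
    apply MvPolynomial.ringHom_ext
    · intro a; simp
    · intro l
      refine Fin.succAboveCases i ?_ (fun j => ?_) l
      · simp
      · simp
  exact congrArg (fun f => f F) h3

theorem one_le_lord_phi_iff_I (v : Fin (n + 1) → k) (F : MvPolynomial (Fin (n + 1)) k) :
    (1 : ℕ∞) ≤ lord (phiI i v F) ↔ MvPolynomial.eval v F = 0 := by
  have : (1 : ℕ∞) = ((1 : ℕ) : ℕ∞) := rfl
  rw [this, le_lord_iff, ← constantCoeff_phi_I]
  constructor
  · intro h
    exact h 0 (by simp)
  · intro h x hx
    have hx0 : x = 0 := by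
      have : x.degree = 0 := by omega
      exact (Finsupp.degree_eq_zero_iff x).1 this
    subst hx0
    exact h

theorem phi_injOn_I {v : Fin (n + 1) → k} (hv : v i ≠ 0) {d : ℕ}
    {F : MvPolynomial (Fin (n + 1)) k} (hF : F.IsHomogeneous d) (h : phiI i v F = 0) : F = 0 := by
  have h2 := (mem_Iv_pow_iff_I hv hF (m := d + 1)).2 (by rw [h, lord_zero]; exact le_top)
  rw [eq_eval₂_T_I hv F, Polynomial.eval₂_eq_sum_range' _ (Nat.lt_succ_of_le (T_natDegree_le hF v))]
  apply Finset.sum_eq_zero
  intro j hj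
  rw [Finset.mem_range] at hj
  have h1 := rho_isHomogeneous (i := i) ((PH_T hF v j).1 (by omega))
  have h0 : rho k i ((T v F).coeff j) = 0 := by
    ext γ
    by_cases hγ : γ.degree = d - j
    · have := coeff_phi_I (i := i) hF v γ (by omega)
      rw [h] at this
      have h5 : d - γ.degree = j := by omega
      rw [h5] at this
      rw [← this]
    · rw [h1.coeff_eq_zero hγ]; simp
  simp [h0]

theorem lord_phi_le_I {v : Fin (n + 1) → k} (hv : v i ≠ 0) {d : ℕ}
    {F : MvPolynomial (Fin (n + 1)) k} (hF : F.IsHomogeneous d) (h0 : F ≠ 0) :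
    lord (phiI i v F) ≤ d := by
  have h1 : phiI i v F ≠ 0 := fun h => h0 (phi_injOn_I hv hF h)
  obtain ⟨γ, hγ⟩ := MvPolynomial.ne_zero_iff.1 h1
  have h2 : γ.degree ≤ d := by
    by_contra hlt
    exact hγ (coeff_phi_of_gt_I hF v γ (by omega))
  exact (lord_le_of_coeff_ne _ γ hγ).trans (by exact_mod_cast h2)

end Pool.Agent.Lib.Chud
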