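import Mathlib
import Pool.Agent.Lib.Chud.LocI
import Pool.Agent.Lib.Chud.CharP

set_option autoImplicit false

namespace Pool.Agent.Lib.Chud

open MvPolynomial Pool.Agent.Lib.P5c592f

section

variable {k : Type*} [Field k] {n : ℕ}

/-- dehomogenisation: set `x_0 = 1` -/
noncomputable def dh (k : Type*) [Field k] (n : ℕ) :
    MvPolynomial (Fin (n + 1)) k →ₐ[k] MvPolynomial (Fin n) k :=
  aeval (Fin.cases 1 (fun j => X j))

@[simp] theorem dh_X_zero : dh k n (X 0) = 1 := by simp [dh]

@[simp] theorem dh_X_succ (j : Fin n) : dh k n (X j.succ) = X j := by simp [dh]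

theorem phiI_eq (v : Fin (n + 1) → k) (hv : v 0 = 1) (F : MvPolynomial (Fin (n + 1)) k) :
    phiI 0 v F = tau (fun j => v j.succ) (dh k n F) := by
  have h : phiI 0 v = (tau (fun j => v j.succ)).comp (dh k n) := by
    apply MvPolynomial.algHom_ext
    intro l
    refine Fin.cases ?_ (fun j => ?_) l
    · simp [hv]
    · rw [phi_X_I, AlgHom.comp_apply, dh_X_succ, tau_X]
      have : (j.succ : Fin (n + 1)) = (0 : Fin (n + 1)).succAbove j := by simp
      rw [this, rho_X_succAbove, add_comm]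
  rw [h]; rfl

theorem totalDegree_aeval_le {σ τ : Type*} (φ : σ → MvPolynomial τ k)
    (hφ : ∀ i, (φ i).totalDegree ≤ 1) (F : MvPolynomial σ k) :
    (aeval φ F).totalDegree ≤ F.totalDegree := by
  classical
  conv_lhs => rw [F.as_sum, map_sum]
  apply totalDegree_finsetSum_le
  intro γ hγ
  rw [aeval_monomial]
  refine (totalDegree_mul _ _).trans ?_
  rw [algebraMap_eq, totalDegree_C, zero_add]
  refine (totalDegree_finsetProd _ _).trans ?_
  refine le_trans ?_ (le_totalDegree hγ)
  apply Finset.sum_le_sum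
  intro i _
  refine (totalDegree_pow _ _).trans ?_
  have := Nat.mul_le_mul_left (γ i) (hφ i)
  simpa using this

theorem totalDegree_dh (F : MvPolynomial (Fin (n + 1)) k) :
    (dh k n F).totalDegree ≤ F.totalDegree := by
  apply totalDegree_aeval_le
  intro i
  refine Fin.cases ?_ (fun j => ?_) i
  · simp
  · simp

theorem dh_rename (g : MvPolynomial (Fin n) k) : dh k n (rename Fin.succ g) = g := by
  unfold dh
  rw [aeval_rename]
  have : ((Fin.cases 1 fun j => X j : Fin (n + 1) → MvPolynomial (Fin n) k) ∘ Fin.succ) = X := by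
    funext j; simp
  rw [this]
  exact aeval_X_left_apply g

theorem exists_homog {g : MvPolynomial (Fin n) k} {d : ℕ} (hd : g.totalDegree ≤ d) :
    ∃ G : MvPolynomial (Fin (n + 1)) k, G.IsHomogeneous d ∧ dh k n G = g := by
  classical
  refine ⟨∑ γ ∈ g.support, X 0 ^ (d - γ.degree) * rename Fin.succ (monomial γ (coeff γ g)), ?_, ?_⟩
  · apply IsHomogeneous.sum
    intro γ hγ
    have h1 : γ.degree ≤ d := (degree_le_of_coeff_ne (mem_support_iff.1 hγ)).trans hd
    have h2 : (rename Fin.succ (monomial γ (coeff γ g)) : MvPolynomial (Fin (n + 1)) k).IsHomogeneous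
        γ.degree := by
      apply IsHomogeneous.rename_isHomogeneous
      exact isHomogeneous_monomial _ rfl
    have h3 := (isHomogeneous_X_pow (R := k) (0 : Fin (n + 1)) (d - γ.degree)).mul h2
    have e : d - γ.degree + γ.degree = d := by omega
    rwa [e] at h3
  · rw [map_sum]
    conv_rhs => rw [g.as_sum]
    apply Finset.sum_congr rfl
    intro γ _
    rw [map_mul, map_pow, dh_X_zero, one_pow, one_mul, dh_rename]

theorem eval_smul_of_linear {G : MvPolynomial (Fin (n + 1)) k} (hG : G.IsHomogeneous 1)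
    (c : k) (v : Fin (n + 1) → k) : eval (fun i => c * v i) G = c * eval v G := by
  rw [eval_eq, eval_eq, Finset.mul_sum]
  apply Finset.sum_congr rfl
  intro γ hγ
  have h1 : γ.degree = 1 := by
    by_contra hne
    exact (MvPolynomial.mem_support_iff.1 hγ) (hG.coeff_eq_zero hne)
  have h2 : ∏ i ∈ γ.support, (c * v i) ^ γ i = c * ∏ i ∈ γ.support, v i ^ γ i := by
    simp_rw [mul_pow]
    rw [Finset.prod_mul_distrib, Finset.prod_pow_eq_pow_sum]
    have : ∑ i ∈ γ.support, γ i = 1 := h1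
    rw [this, pow_one]
  rw [h2]; ring

theorem Iv_smul {c : k} (hc : c ≠ 0) (v : Fin (n + 1) → k) : Iv (fun i => c * v i) = Iv v := by
  unfold Iv
  congr 1
  ext G
  constructor
  · rintro ⟨h1, h2⟩
    refine ⟨h1, ?_⟩
    rw [eval_smul_of_linear h1] at h2
    exact (mul_eq_zero.1 h2).resolve_left hc
  · rintro ⟨h1, h2⟩
    refine ⟨h1, ?_⟩
    rw [eval_smul_of_linear h1, h2, mul_zero]

/-- linear change of coordinates `x_0 ↦ x_0 + ∑ c_j x_j` -/
noncomputable def Lc (c : Fin n → k) :
    MvPolynomial (Fin (n + 1)) k →ₐ[k] MvPolynomial (Fin (n + 1)) k :=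
  aeval (Fin.cases (X 0 + ∑ j, C (c j) * X j.succ) (fun j => X j.succ))

@[simp] theorem Lc_X_zero (c : Fin n → k) : Lc c (X 0) = X 0 + ∑ j, C (c j) * X j.succ := by
  simp [Lc]

@[simp] theorem Lc_X_succ (c : Fin n → k) (j : Fin n) : Lc c (X j.succ) = X j.succ := by
  simp [Lc]

theorem Lc_Lc (c : Fin n → k) (F : MvPolynomial (Fin (n + 1)) k) :
    Lc (fun j => - c j) (Lc c F) = F := by
  have h : (Lc (fun j => - c j)).comp (Lc c) = AlgHom.id k _ := by
    apply MvPolynomial.algHom_ext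
    intro l
    refine Fin.cases ?_ (fun j => ?_) l
    · simp
    · simp
  exact congrArg (fun f => f F) h

theorem Lc_hom (c : Fin n → k) {F : MvPolynomial (Fin (n + 1)) k} {d : ℕ}
    (hF : F.IsHomogeneous d) : (Lc c F).IsHomogeneous d := by
  have := hF.aeval (Fin.cases (X 0 + ∑ j, C (c j) * X j.succ) (fun j => X j.succ) :
    Fin (n + 1) → MvPolynomial (Fin (n + 1)) k) (n := 1) (fun l => by
      refine Fin.cases ?_ (fun j => ?_) l
      · simp only [Fin.cases_zero]
        apply (isHomogeneous_X _ _).add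
        apply IsHomogeneous.sum
        intro j _
        exact isHomogeneous_C_mul_X _ _
      · simpa using isHomogeneous_X _ _)
  simpa [Lc] using this

/-- the point transformation dual to `Lc` -/
def pt (c : Fin n → k) (v : Fin (n + 1) → k) : Fin (n + 1) → k :=
  Fin.cases (v 0 - ∑ j, c j * v j.succ) (fun j => v j.succ)

theorem eval_Lc (c : Fin n → k) (v : Fin (n + 1) → k) (F : MvPolynomial (Fin (n + 1)) k) :
    eval (pt c v) (Lc c F) = eval v F := by
  have h : ((MvPolynomial.eval (pt c v)).comp (Lc c : MvPolynomial (Fin (n + 1)) k →+* MvPolynomial (Fin (n + 1)) k)) =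
      MvPolynomial.eval v := by
    apply MvPolynomial.ringHom_ext
    · intro a; simp
    · intro l
      refine Fin.cases ?_ (fun j => ?_) l
      · simp [pt]
      · simp [pt]
  exact congrArg (fun f => f F) h

theorem Lc_mem {c : Fin n → k} {v : Fin (n + 1) → k} {m : ℕ} {F : MvPolynomial (Fin (n + 1)) k}
    (h : F ∈ Iv v ^ m) : Lc c F ∈ Iv (pt c v) ^ m := by
  have h1 : (Iv v).map (Lc c : MvPolynomial (Fin (n + 1)) k →+* MvPolynomial (Fin (n + 1)) k) ≤ Iv (pt c v) := by
    rw [Iv, Ideal.map_span, Ideal.span_le]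
    rintro _ ⟨G, ⟨hG1, hG0⟩, rfl⟩
    apply Ideal.subset_span
    refine ⟨Lc_hom c hG1, ?_⟩
    rw [← hG0]
    exact eval_Lc c v G
  have h2 := Ideal.mem_map_of_mem (Lc c : MvPolynomial (Fin (n + 1)) k →+* MvPolynomial (Fin (n + 1)) k) h
  rw [Ideal.map_pow] at h2
  exact Ideal.pow_right_mono h1 m h2

theorem pt_pt (c : Fin n → k) (v : Fin (n + 1) → k) : pt (fun j => - c j) (pt c v) = v := by
  funext l
  refine Fin.cases ?_ (fun j => ?_) l
  · simp [pt]
  · simp [pt]

theorem exists_generic [Infinite k] {ι : Type*} [Finite ι] (v : ι → Fin (n + 1) → k)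
    (hv : ∀ i, v i ≠ 0) : ∃ c : Fin n → k, ∀ i, pt c (v i) 0 ≠ 0 := by
  classical
  cases nonempty_fintype ι
  let G : ι → MvPolynomial (Fin n) k := fun i => C (v i 0) - ∑ j, C (v i j.succ) * X j
  have hG : ∀ i, G i ≠ 0 := by
    intro i h0
    apply hv i
    funext l
    refine Fin.cases ?_ (fun j => ?_) l
    · have h1 := congrArg (eval (fun _ => (0 : k))) h0
      simpa [G] using h1
    · have h1 := congrArg (eval (fun _ => (0 : k))) h0
      have h2 := congrArg (eval (Pi.single j (1 : k))) h0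
      simp only [G, map_sub, eval_C, map_sum, map_mul, eval_X, map_zero, mul_zero,
        Finset.sum_const_zero, sub_zero] at h1 h2
      rw [h1, Finset.sum_eq_single j] at h2
      · simpa using h2
      · intro b _ hb
        rw [Pi.single_eq_of_ne hb, mul_zero]
      · simp
  have hprod : ∏ i, G i ≠ 0 := Finset.prod_ne_zero_iff.2 (fun i _ => hG i)
  obtain ⟨c, hc⟩ : ∃ c : Fin n → k, eval c (∏ i, G i) ≠ 0 := by
    by_contra hcon
    push Not at hcon
    apply hprod
    apply MvPolynomial.funext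
    intro x
    rw [hcon x, map_zero]
  refine ⟨c, fun i => ?_⟩
  rw [map_prod, Finset.prod_ne_zero_iff] at hc
  have := hc i (Finset.mem_univ _)
  simp only [G, map_sub, eval_C, map_sum, map_mul, eval_X] at this
  simp only [pt, Fin.cases_zero]
  intro h0
  apply this
  rw [← h0]
  congr 1
  apply Finset.sum_congr rfl
  intro j _
  ring

/-- the Chudnovsky-Demailly bound in characteristic `p`, projective form -/
theorem proj_charp [IsAlgClosed k] {p : ℕ} [Fact p.Prime] [CharP k p] (hn : 1 ≤ n)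
    {ι : Type*} [Finite ι] [Nonempty ι] (v : ι → Fin (n + 1) → k) (hv : ∀ i, v i ≠ 0)
    (μ : ι → ℕ) (hμ : ∀ i, 1 ≤ μ i) (m A : ℕ)
    (hA : ∀ (d : ℕ) (G : MvPolynomial (Fin (n + 1)) k), G.IsHomogeneous d → G ≠ 0 →
      (∀ i, G ∈ Iv (v i) ^ (m * μ i)) → A ≤ d)
    (r d : ℕ) {F : MvPolynomial (Fin (n + 1)) k} (hF : F.IsHomogeneous d) (h0 : F ≠ 0)
    (hord : ∀ i, F ∈ Iv (v i) ^ (r * (m + n - 1) * μ i)) :
    r * (A + n - 1) ≤ d := by
  obtain ⟨c, hc⟩ := exists_generic v hv
  let w : ι → Fin (n + 1) → k := fun i l => (pt c (v i) 0)⁻¹ * pt c (v i) l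
  have hw0 : ∀ i, w i 0 = 1 := fun i => inv_mul_cancel₀ (hc i)
  have hw1 : ∀ i, w i 0 ≠ 0 := fun i => by rw [hw0]; exact one_ne_zero
  have hIv : ∀ i, Iv (w i) = Iv (pt c (v i)) := fun i => Iv_smul (inv_ne_zero (hc i)) _
  let S : ι → Fin n → k := fun i j => w i j.succ
  have key : ∀ (i : ι) (e M : ℕ) (G : MvPolynomial (Fin (n + 1)) k), G.IsHomogeneous e →
      (G ∈ Iv (w i) ^ M ↔ OrdGE (S i) M (dh k n G)) := by
    intro i e M G hG
    rw [mem_Iv_pow_iff_I (hw1 i) hG, ordGE_iff, phiI_eq _ (hw0 i)]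
  have hN : 1 ≤ Fintype.card (Fin n) := by simpa using hn
  have hA' : ∀ g : MvPolynomial (Fin n) k, g ≠ 0 → (∀ i, OrdGE (S i) (m * μ i) g) →
      A ≤ g.totalDegree := by
    intro g hg0 hg
    obtain ⟨G, hG, hGg⟩ := exists_homog (le_refl g.totalDegree)
    have hLG := Lc_hom (fun j => - c j) hG
    apply hA _ _ hLG
    · intro h
      have h1 := Lc_Lc (fun j => - c j) G
      rw [h, map_zero] at h1
      apply hg0
      rw [← hGg, ← h1, map_zero]
    · intro i
      have h1 := (key i _ (m * μ i) G hG).2 (by rw [hGg]; exact hg i)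
      rw [hIv] at h1
      have h2 := Lc_mem (c := fun j => - c j) h1
      rwa [pt_pt] at h2
  have hLF := Lc_hom c hF
  have hf0 : dh k n (Lc c F) ≠ 0 := by
    intro h
    obtain ⟨i⟩ := ‹Nonempty ι›
    have h1 : Lc c F = 0 := by
      apply phi_injOn_I (hw1 i) hLF
      rw [phiI_eq _ (hw0 i), h, map_zero]
    apply h0
    rw [← Lc_Lc c F, h1, map_zero]
  have h1 := charp_all (p := p) hN S μ hμ m A hA' r hf0 (fun i => by
    rw [← key i d _ _ hLF, hIv, Fintype.card_fin]
    exact Lc_mem (hord i))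
  rw [Fintype.card_fin] at h1
  exact h1.trans ((totalDegree_dh _).trans hLF.totalDegree_le)

end

end Pool.Agent.Lib.Chud
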