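import Mathlib

set_option autoImplicit false

namespace Pool.Agent.Lib.Chud

universe u

theorem isJacobsonRing_int : IsJacobsonRing ℤ := by
  rw [isJacobsonRing_iff_prime_eq]
  intro P hP
  by_cases h0 : P = ⊥
  · subst h0
    apply le_antisymm _ Ideal.le_jacobson
    intro x hx
    rw [Ideal.mem_bot]
    by_contra hx0
    obtain ⟨p, hp, hpp⟩ := Nat.exists_infinite_primes (x.natAbs + 1)
    have hpZ : Prime (p : ℤ) := Nat.prime_iff_prime_int.1 hpp
    have hmax : (Ideal.span {(p : ℤ)}).IsMaximal :=
      PrincipalIdealRing.isMaximal_of_irreducible hpZ.irreducible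
    rw [Ideal.mem_jacobson_iff] at hx
    have h1 : x ∈ Ideal.span {(p : ℤ)} := by
      by_contra hnot
      obtain ⟨y, i, hi, hyi⟩ := hmax.exists_inv hnot
      obtain ⟨z, hz⟩ := hx (-y)
      rw [Ideal.mem_bot] at hz
      have h2 : z * i = 1 := by linear_combination hz + z * hyi
      have h3 : (1 : ℤ) ∈ Ideal.span {(p : ℤ)} := by
        rw [← h2]
        exact Ideal.mul_mem_left _ _ hi
      exact hmax.ne_top ((Ideal.eq_top_iff_one _).2 h3)
    rw [Ideal.mem_span_singleton] at h1
    have h4 := Int.natAbs_dvd_natAbs.2 h1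
    rw [Int.natAbs_natCast] at h4
    have h5 := Nat.le_of_dvd (Int.natAbs_pos.2 hx0) h4
    omega
  · have := hP.isMaximal h0
    exact Ideal.jacobson_eq_self_of_isMaximal

/-- a field of finite type over the integers has positive characteristic -/
theorem charP_of_finiteType (F : Type u) [Field F] (f : ℤ →+* F) (hf : f.FiniteType) :
    ∃ p : ℕ, p.Prime ∧ CharP F p := by
  have hf' : (algebraMap ℤ F).FiniteType := by
    rwa [Subsingleton.elim (algebraMap ℤ F) f]
  have : Algebra.FiniteType ℤ F := by
    have h : f = algebraMap ℤ F := Subsingleton.elim _ _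
    exact (RingHom.finiteType_algebraMap).1 hf'
  obtain ⟨p, hp⟩ := CharP.exists F
  rcases CharP.char_is_prime_or_zero F p with h | h
  · exact ⟨p, h, hp⟩
  · exfalso
    subst h
    have hc : CharZero F := CharP.charP_to_charZero F
    have := isJacobsonRing_int
    have hfin : Module.Finite ℤ F := finite_of_finite_type_of_isJacobsonRing ℤ F
    have hint : Algebra.IsIntegral ℤ F := inferInstance
    have hinj : Function.Injective (algebraMap ℤ F) := (algebraMap ℤ F).injective_int
    have : IsField ℤ := isField_of_isIntegral_of_isField hinj (Field.toIsField F)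
    exact Int.not_isField this

/-- Lefschetz-type principle: a finitely generated subring of a field maps to an algebraically
closed field of positive characteristic. -/
theorem exists_hom_charP (k : Type u) [Field k] (s : Set k) (hs : s.Finite) :
    ∃ (K : Type u) (_ : Field K) (_ : IsAlgClosed K) (p : ℕ) (_ : p.Prime) (_ : CharP K p),
      Nonempty (Algebra.adjoin ℤ s →+* K) := by
  obtain ⟨p, hp⟩ := CharP.exists k
  rcases CharP.char_is_prime_or_zero k p with h | h
  · refine ⟨AlgebraicClosure k, inferInstance, inferInstance, p, h,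
      charP_of_injective_algebraMap (algebraMap k (AlgebraicClosure k)).injective p,
      ⟨(algebraMap k (AlgebraicClosure k)).comp (Algebra.adjoin ℤ s).subtype⟩⟩
  · let A := Algebra.adjoin ℤ s
    obtain ⟨m, hm⟩ := Ideal.exists_maximal A
    let _ := Ideal.Quotient.field m
    have hA : Algebra.FiniteType ℤ A := by
      rw [← Subalgebra.fg_iff_finiteType]
      exact ⟨hs.toFinset, by simp [A]⟩
    have hQ' : ((Ideal.Quotient.mk m).comp (algebraMap ℤ A)).FiniteType := by
      apply RingHom.FiniteType.comp_surjective _ Ideal.Quotient.mk_surjective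
      exact (RingHom.finiteType_algebraMap).2 hA
    obtain ⟨p, hp, hcp⟩ := charP_of_finiteType (A ⧸ m) _ hQ'
    refine ⟨AlgebraicClosure (A ⧸ m), inferInstance, inferInstance, p, hp,
      charP_of_injective_algebraMap (algebraMap (A ⧸ m) (AlgebraicClosure (A ⧸ m))).injective p,
      ⟨(algebraMap (A ⧸ m) (AlgebraicClosure (A ⧸ m))).comp (Ideal.Quotient.mk m)⟩⟩

end Pool.Agent.Lib.Chud
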