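import Mathlib
import Pool.Agent.Lib.Chud.Cmp
import Pool.Agent.Lib.Chud.Lefschetz

set_option autoImplicit false

namespace Pool.Agent.Lib.Chud

open MvPolynomial

section Cert

variable {τ : Type*} [Fintype τ] {ι : Type*} [Fintype ι]

noncomputable instance lowFintype (M : ℕ) : Fintype {β : τ →₀ ℕ // β.degree < M} :=
  (Finsupp.finite_of_degree_lt M).fintype

/-- certificate for the nonexistence of nonzero forms of degree `D` with given orders -/
def Cert {R : Type*} [CommRing R] (v : ι → τ → R) (M : ι → ℕ) (D : ℕ)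
    (c : (τ →₀ ℕ) → (Σ i : ι, {β : τ →₀ ℕ // β.degree < M i}) → R) : Prop :=
  ∀ γ δ : τ →₀ ℕ, γ.degree = D → δ.degree = D →
    ∑ x, c γ x * coeff x.2.1 (tau (v x.1) (monomial δ 1)) = if γ = δ then 1 else 0

omit [Fintype τ] in
theorem tau_eq_sum {R : Type*} [CommRing R] (P : τ → R) (G : MvPolynomial τ R) :
    tau P G = ∑ δ ∈ G.support, C (coeff δ G) * tau P (monomial δ 1) := by
  conv_lhs => rw [G.as_sum, map_sum]
  apply Finset.sum_congr rfl
  intro δ _
  have h : monomial δ (coeff δ G) = C (coeff δ G) * monomial δ 1 := by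
    rw [C_mul_monomial, mul_one]
  rw [h, map_mul, tau_C]

theorem Cert.sound {R : Type*} [CommRing R] {v : ι → τ → R} {M : ι → ℕ} {D : ℕ}
    {c : (τ →₀ ℕ) → (Σ i : ι, {β : τ →₀ ℕ // β.degree < M i}) → R} (h : Cert v M D c)
    {G : MvPolynomial τ R} (hG : G.IsHomogeneous D) (hord : ∀ i, OrdGE (v i) (M i) G) : G = 0 := by
  classical
  ext γ
  rw [coeff_zero]
  by_cases hγ : γ.degree = D
  · have h1 : coeff γ G = ∑ δ ∈ G.support, coeff δ G *
        ∑ x, c γ x * coeff x.2.1 (tau (v x.1) (monomial δ 1)) := by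
      have h2 : ∀ δ ∈ G.support, coeff δ G *
          ∑ x, c γ x * coeff x.2.1 (tau (v x.1) (monomial δ 1)) =
          if γ = δ then coeff δ G else 0 := by
        intro δ hδ
        have hd : δ.degree = D := by
          by_contra hne
          exact (mem_support_iff.1 hδ) (hG.coeff_eq_zero hne)
        rw [h γ δ hγ hd]
        split_ifs <;> simp
      rw [Finset.sum_congr rfl h2, Finset.sum_ite_eq]
      split_ifs with h3
      · rfl
      · rwa [mem_support_iff, not_not] at h3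
    rw [h1]
    simp_rw [Finset.mul_sum]
    rw [Finset.sum_comm]
    apply Finset.sum_eq_zero
    intro x _
    have h4 : ∑ δ ∈ G.support, coeff δ G * (c γ x * coeff x.2.1 (tau (v x.1) (monomial δ 1))) =
        c γ x * coeff x.2.1 (tau (v x.1) G) := by
      rw [tau_eq_sum, coeff_sum, Finset.mul_sum]
      apply Finset.sum_congr rfl
      intro δ _
      rw [coeff_C_mul]
      ring
    rw [h4, hord x.1 x.2.1 x.2.2, mul_zero]
  · exact hG.coeff_eq_zero hγ

theorem Cert.exists {k : Type*} [Field k] (v : ι → τ → k) (M : ι → ℕ) (D : ℕ)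
    (h : ∀ G : MvPolynomial τ k, G.IsHomogeneous D → (∀ i, OrdGE (v i) (M i) G) → G = 0) :
    ∃ c, Cert v M D c := by
  classical
  let E := homogeneousSubmodule τ k D
  let L : (Σ i : ι, {β : τ →₀ ℕ // β.degree < M i}) → E →ₗ[k] k := fun x =>
    ((lcoeff k x.2.1).comp (tau (v x.1)).toLinearMap).domRestrict E
  let Kf : (τ →₀ ℕ) → E →ₗ[k] k := fun γ => (lcoeff k γ).domRestrict E
  have hker : ∀ γ, Kf γ ∈ Submodule.span k (Set.range L) := by
    intro γ
    apply mem_span_of_iInf_ker_le_ker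
    intro G hG
    rw [Submodule.mem_iInf] at hG
    have h1 : G.1 = 0 := by
      apply h G.1 G.2
      intro i β hβ
      exact hG ⟨i, ⟨β, hβ⟩⟩
    have h2 : G = 0 := Subtype.ext h1
    rw [h2, LinearMap.mem_ker, map_zero]
  have hex : ∀ γ, ∃ c : (Σ i : ι, {β : τ →₀ ℕ // β.degree < M i}) → k,
      ∑ x, c x • L x = Kf γ := fun γ => (Submodule.mem_span_range_iff_exists_fun k).1 (hker γ)
  choose c hc using hex
  refine ⟨c, ?_⟩
  intro γ δ _ hδ
  have h1 := LinearMap.congr_fun (hc γ) (⟨monomial δ 1, isHomogeneous_monomial _ hδ⟩ : E)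
  rw [LinearMap.sum_apply] at h1
  have h2 : ∀ x, (c γ x • L x) (⟨monomial δ 1, isHomogeneous_monomial _ hδ⟩ : E) =
      c γ x * coeff x.2.1 (tau (v x.1) (monomial δ 1)) := by
    intro x
    rfl
  rw [Finset.sum_congr rfl (fun x _ => h2 x)] at h1
  rw [h1]
  show coeff γ (monomial δ (1 : k)) = _
  rw [coeff_monomial]
  by_cases h : γ = δ
  · rw [if_pos h, if_pos h.symm]
  · rw [if_neg h, if_neg (Ne.symm h)]

omit [Fintype τ] in
theorem coeff_tau_monomial_map {R K : Type*} [CommRing R] [CommRing K] (φ : R →+* K)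
    (P : τ → R) (δ β : τ →₀ ℕ) :
    φ (coeff β (tau P (monomial δ 1))) = coeff β (tau (fun j => φ (P j)) (monomial δ 1)) := by
  rw [← coeff_map, map_tau, map_monomial, map_one]

theorem Cert.map {R K : Type*} [CommRing R] [CommRing K] (φ : R →+* K) {v : ι → τ → R}
    {M : ι → ℕ} {D : ℕ} {c : (τ →₀ ℕ) → (Σ i : ι, {β : τ →₀ ℕ // β.degree < M i}) → R}
    (h : Cert v M D c) : Cert (fun i j => φ (v i j)) M D (fun γ x => φ (c γ x)) := by
  intro γ δ hγ hδ
  have h1 := congrArg φ (h γ δ hγ hδ)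
  rw [map_sum] at h1
  simp_rw [map_mul, coeff_tau_monomial_map] at h1
  rw [h1]
  split_ifs <;> simp

theorem Cert.of_map {R K : Type*} [CommRing R] [CommRing K] {φ : R →+* K}
    (hφ : Function.Injective φ) {v : ι → τ → K} {vB : ι → τ → R} (hv : ∀ i j, φ (vB i j) = v i j)
    {M : ι → ℕ} {D : ℕ} {c : (τ →₀ ℕ) → (Σ i : ι, {β : τ →₀ ℕ // β.degree < M i}) → K}
    {cB : (τ →₀ ℕ) → (Σ i : ι, {β : τ →₀ ℕ // β.degree < M i}) → R}
    (hc : ∀ γ, γ.degree = D → ∀ x, φ (cB γ x) = c γ x) (h : Cert v M D c) :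
    Cert vB M D cB := by
  intro γ δ hγ hδ
  apply hφ
  rw [map_sum]
  simp_rw [map_mul, coeff_tau_monomial_map, hc γ hγ, hv]
  rw [h γ δ hγ hδ]
  split_ifs <;> simp

end Cert

section

universe u

variable {τ : Type*} [Fintype τ] {ι : Type*} [Fintype ι] {k : Type u} [Field k]

/-- spreading out and reduction to positive characteristic -/
theorem transfer (v : ι → τ → k) (hv : ∀ i, v i ≠ 0) (M M' : ι → ℕ) (A d : ℕ)
    (hA : ∀ D < A, ∀ G : MvPolynomial τ k, G.IsHomogeneous D →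
      (∀ i, OrdGE (v i) (M i) G) → G = 0)
    {F : MvPolynomial τ k} (hF : F.IsHomogeneous d) (h0 : F ≠ 0)
    (hord : ∀ i, OrdGE (v i) (M' i) F) :
    ∃ (K : Type u) (_ : Field K) (_ : IsAlgClosed K) (p : ℕ) (_ : p.Prime) (_ : CharP K p)
      (w : ι → τ → K), (∀ i, w i ≠ 0) ∧
      (∀ D < A, ∀ G : MvPolynomial τ K, G.IsHomogeneous D →
        (∀ i, OrdGE (w i) (M i) G) → G = 0) ∧
      ∃ F' : MvPolynomial τ K, F'.IsHomogeneous d ∧ F' ≠ 0 ∧ ∀ i, OrdGE (w i) (M' i) F' := by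
  classical
  have hc : ∀ D, ∃ c, D < A → Cert v M D c := by
    intro D
    by_cases hD : D < A
    · obtain ⟨c, hc⟩ := Cert.exists v M D (hA D hD)
      exact ⟨c, fun _ => hc⟩
    · exact ⟨fun _ _ => 0, fun h => absurd h hD⟩
  choose c hc using hc
  have hj : ∀ i, ∃ j, v i j ≠ 0 := fun i => Function.ne_iff.1 (hv i)
  choose j hj using hj
  obtain ⟨γ₀, hγ₀⟩ := MvPolynomial.ne_zero_iff.1 h0
  let s1 : Set k := ⋃ i, Set.range (v i)
  let s2 : Set k := (F.coeffs : Set k)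
  let s3 : Set k := ⋃ D ∈ Set.Iio A, ⋃ γ ∈ {γ : τ →₀ ℕ | γ.degree = D}, Set.range (c D γ)
  let s4 : Set k := Set.range (fun i => (v i (j i))⁻¹)
  let s : Set k := s1 ∪ s2 ∪ s3 ∪ s4 ∪ {(coeff γ₀ F)⁻¹}
  have hs : s.Finite := by
    refine ((((Set.finite_iUnion fun i => Set.finite_range _).union
      (Finset.finite_toSet _)).union ?_).union (Set.finite_range _)).union (Set.finite_singleton _)
    refine Set.Finite.biUnion (Set.finite_Iio A) (fun D _ => ?_)
    exact Set.Finite.biUnion (Finsupp.finite_of_degree_eq D) (fun γ _ => Set.finite_range _)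
  obtain ⟨K, hKf, hKa, p, hp, hcp, ⟨φ⟩⟩ := exists_hom_charP k s hs
  let B := Algebra.adjoin ℤ s
  let ψ : B →+* k := B.subtype
  have hψ : Function.Injective ψ := Subtype.val_injective
  have hs1 : ∀ i l, v i l ∈ s := fun i l =>
    Or.inl (Or.inl (Or.inl (Or.inl (Set.mem_iUnion.2 ⟨i, ⟨l, rfl⟩⟩))))
  have hs2 : ∀ x ∈ F.coeffs, x ∈ s := fun x hx => Or.inl (Or.inl (Or.inl (Or.inr hx)))
  have hs3 : ∀ D < A, ∀ γ : τ →₀ ℕ, γ.degree = D → ∀ x, c D γ x ∈ s := by
    intro D hD γ hγ x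
    refine Or.inl (Or.inl (Or.inr ?_))
    refine Set.mem_iUnion₂.2 ⟨D, hD, ?_⟩
    exact Set.mem_iUnion₂.2 ⟨γ, hγ, ⟨x, rfl⟩⟩
  have hs4 : ∀ i, (v i (j i))⁻¹ ∈ s := fun i => Or.inl (Or.inr ⟨i, rfl⟩)
  have hs5 : (coeff γ₀ F)⁻¹ ∈ s := Or.inr rfl
  have hmem : ∀ x ∈ s, x ∈ B := fun x hx => Algebra.subset_adjoin hx
  let vB : ι → τ → B := fun i l => ⟨v i l, hmem _ (hs1 i l)⟩
  let cB : ∀ D, (τ →₀ ℕ) → (Σ i : ι, {β : τ →₀ ℕ // β.degree < M i}) → B := fun D γ x =>
    if h : D < A ∧ γ.degree = D then ⟨c D γ x, hmem _ (hs3 D h.1 γ h.2 x)⟩ else 0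
  obtain ⟨FB, hFB⟩ : ∃ FB : MvPolynomial τ B, map ψ FB = F := by
    have : F ∈ Set.range (MvPolynomial.map ψ : MvPolynomial τ B →+* MvPolynomial τ k) := by
      rw [mem_range_map_iff_coeffs_subset]
      intro x hx
      exact ⟨⟨x, hmem x (hs2 x hx)⟩, rfl⟩
    exact this
  refine ⟨K, hKf, hKa, p, hp, hcp, fun i l => φ (vB i l), ?_, ?_, map φ FB, ?_, ?_, ?_⟩
  · intro i h
    have h1 : vB i (j i) * ⟨(v i (j i))⁻¹, hmem _ (hs4 i)⟩ = 1 :=
      Subtype.ext (mul_inv_cancel₀ (hj i))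
    have h2 := congrArg φ h1
    have h3 := congrFun h (j i)
    simp only [Pi.zero_apply] at h3
    rw [map_mul, h3, zero_mul, map_one] at h2
    exact zero_ne_one h2
  · intro D hD G hG hGo
    have h1 : Cert vB M D (cB D) := by
      apply Cert.of_map hψ (v := v) (c := c D) (fun i l => rfl) _ (hc D hD)
      intro γ hγ x
      simp only [cB]
      rw [dif_pos ⟨hD, hγ⟩]
      rfl
    exact (h1.map φ).sound hG hGo
  · intro γ hγ
    rw [coeff_map] at hγ
    apply hF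
    rw [← hFB, coeff_map]
    intro h
    apply hγ
    have : coeff γ FB = 0 := hψ (by rw [h, map_zero])
    rw [this, map_zero]
  · intro h
    have h1 : coeff γ₀ FB * ⟨(coeff γ₀ F)⁻¹, hmem _ hs5⟩ = 1 := by
      apply hψ
      rw [map_mul, map_one, ← coeff_map, hFB]
      exact mul_inv_cancel₀ hγ₀
    have h2 := congrArg φ h1
    have h3 := congrArg (coeff γ₀) h
    rw [coeff_map, coeff_zero] at h3
    rw [map_mul, h3, zero_mul, map_one] at h2
    exact zero_ne_one h2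
  · intro i γ hγ
    rw [← map_tau, coeff_map]
    have h1 : coeff γ (tau (vB i) FB) = 0 := by
      apply hψ
      rw [map_zero, ← coeff_map, map_tau, hFB]
      exact hord i γ hγ
    rw [h1, map_zero]

end

end Pool.Agent.Lib.Chud
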