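import Mathlib
import Pool.Agent.Lib.Chud.Homog
import Pool.Agent.Lib.Chud.Transfer

set_option autoImplicit false

namespace Pool.Agent.Lib.Chud

open MvPolynomial Pool.Agent.Lib.P5c592f

section

variable {k : Type*} [Field k] {n : ℕ}

theorem OrdGE.of_mem_pow {σ : Type*} {P : σ → k} {m : ℕ} {F : MvPolynomial σ k}
    (J : Ideal (MvPolynomial σ k)) (hJ : ∀ G ∈ J, eval P G = 0) (h : F ∈ J ^ m) :
    OrdGE P m F := by
  rw [ordGE_iff, le_lord_iff_mem]
  have h1 : J.map (tau P : MvPolynomial σ k →+* MvPolynomial σ k) ≤ idealOfVars σ k := by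
    rw [Ideal.map_le_iff_le_comap]
    intro G hG
    rw [Ideal.mem_comap]
    have h2 : tau P G ∈ idealOfVars σ k ^ 1 := by
      rw [mem_pow_idealOfVars_iff']
      intro x hx
      have hx0 : x = 0 := by
        have : x.degree = 0 := by omega
        exact (Finsupp.degree_eq_zero_iff x).1 this
      subst hx0
      have h3 : ((MvPolynomial.constantCoeff (R := k) (σ := σ)).comp
          (tau P : MvPolynomial σ k →+* MvPolynomial σ k)) = MvPolynomial.eval P := by
        apply MvPolynomial.ringHom_ext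
        · intro a; simp
        · intro l; simp
      have h4 := congrArg (fun f => f G) h3
      simp only [RingHom.comp_apply, RingHom.coe_coe] at h4
      rw [hJ G hG] at h4
      rw [← h4]
      rfl
    simpa using h2
  have h2 := Ideal.mem_map_of_mem (tau P : MvPolynomial σ k →+* MvPolynomial σ k) h
  rw [Ideal.map_pow] at h2
  exact Ideal.pow_right_mono h1 m h2

theorem rho_mem_pow (i : Fin (n + 1)) {m : ℕ} {u : MvPolynomial (Fin (n + 1)) k}
    (hu : u ∈ idealOfVars (Fin (n + 1)) k ^ m) : rho k i u ∈ idealOfVars (Fin n) k ^ m := by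
  have h1 : (idealOfVars (Fin (n + 1)) k).map
      (rho k i : MvPolynomial (Fin (n + 1)) k →+* MvPolynomial (Fin n) k) ≤
      idealOfVars (Fin n) k := by
    rw [idealOfVars, Ideal.map_span, Ideal.span_le]
    rintro _ ⟨_, ⟨l, rfl⟩, rfl⟩
    refine Fin.succAboveCases i ?_ (fun j => ?_) l
    · simp
    · simp only [RingHom.coe_coe, rho_X_succAbove, SetLike.mem_coe]
      exact Ideal.subset_span ⟨j, rfl⟩
  have h2 := Ideal.mem_map_of_mem
    (rho k i : MvPolynomial (Fin (n + 1)) k →+* MvPolynomial (Fin n) k) hu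
  rw [Ideal.map_pow] at h2
  exact Ideal.pow_right_mono h1 m h2

theorem mem_Iv_iff_ordGE {v : Fin (n + 1) → k} (hv : v ≠ 0) {d m : ℕ}
    {F : MvPolynomial (Fin (n + 1)) k} (hF : F.IsHomogeneous d) :
    F ∈ Iv v ^ m ↔ OrdGE v m F := by
  constructor
  · intro h
    apply OrdGE.of_mem_pow (Iv v) _ h
    intro G hG
    rw [Iv] at hG
    induction hG using Submodule.span_induction with
    | mem x hx => exact hx.2
    | zero => exact map_zero _
    | add x y _ _ hx hy => rw [map_add, hx, hy, add_zero]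
    | smul c x _ hx => rw [smul_eq_mul, map_mul, hx, mul_zero]
  · intro h
    rw [mem_Iv_pow_iff hv hF, le_lord_iff_mem]
    rw [ordGE_iff, le_lord_iff_mem] at h
    have h1 : phi v = (rho k (chart v)).comp (tau v) := by
      apply MvPolynomial.algHom_ext
      intro l
      simp [add_comm]
    have h2 : phi v F = rho k (chart v) (tau v F) := by
      rw [h1, AlgHom.comp_apply]
    rw [h2]
    exact rho_mem_pow (chart v) h

end

section

universe u

/-- The Chudnovsky-Demailly bound for fat points over an arbitrary field: if every nonzero form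
vanishing to order at least `m μ_i` at the points `v_i` has degree at least `A`, then every nonzero
form vanishing to order at least `r (m + n - 1) μ_i` has degree at least `r (A + n - 1)`. -/
theorem demailly {k : Type u} [Field k] {n : ℕ} (hn : 1 ≤ n) {ι : Type*} [Finite ι] [Nonempty ι]
    (v : ι → Fin (n + 1) → k) (hv : ∀ i, v i ≠ 0) (μ : ι → ℕ) (hμ : ∀ i, 1 ≤ μ i) (m A : ℕ)
    (hA : ∀ (d : ℕ) (G : MvPolynomial (Fin (n + 1)) k), G.IsHomogeneous d → G ≠ 0 →
      (∀ i, G ∈ Iv (v i) ^ (m * μ i)) → A ≤ d)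
    (r d : ℕ) {F : MvPolynomial (Fin (n + 1)) k} (hF : F.IsHomogeneous d) (h0 : F ≠ 0)
    (hord : ∀ i, F ∈ Iv (v i) ^ (r * (m + n - 1) * μ i)) :
    r * (A + n - 1) ≤ d := by
  cases nonempty_fintype ι
  obtain ⟨K, hKf, hKa, p, hp, hcp, w, hw, hwA, F', hF', hF'0, hF'o⟩ :=
    transfer v hv (fun i => m * μ i) (fun i => r * (m + n - 1) * μ i) A d
      (fun D hD G hG hGo => by
        by_contra hG0
        have := hA D G hG hG0 (fun i => (mem_Iv_iff_ordGE (hv i) hG).2 (hGo i))
        omega) hF h0 (fun i => (mem_Iv_iff_ordGE (hv i) hF).1 (hord i))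
  have : Fact p.Prime := ⟨hp⟩
  exact proj_charp (p := p) hn w hw μ hμ m A (fun D G hG hG0 hGo => by
    by_contra hlt
    exact hG0 (hwA D (by omega) G hG (fun i => (mem_Iv_iff_ordGE (hw i) hG).1 (hGo i))))
    r d hF' hF'0 (fun i => (mem_Iv_iff_ordGE (hw i) hF').2 (hF'o i))

end

end Pool.Agent.Lib.Chud
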