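import Mathlib
import Pool.Agent.Lib.Chud.Main

set_option autoImplicit false

namespace Pool.Agent.Lib.Chud

open MvPolynomial Pool.Agent.Lib.P5c592f

section

variable {k : Type*} [Field k]

attribute [local instance] MvPolynomial.gradedAlgebra

theorem isHomogeneous_span {σ : Type*} (s : Set (MvPolynomial σ k))
    (h : ∀ x ∈ s, ∃ d, x.IsHomogeneous d) :
    (Ideal.span s).IsHomogeneous (homogeneousSubmodule σ k) := by
  apply Ideal.homogeneous_span
  intro x hx
  obtain ⟨d, hd⟩ := h x hx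
  exact ⟨d, hd⟩

theorem isHomogeneous_pow {σ : Type*} {J : Ideal (MvPolynomial σ k)}
    (h : J.IsHomogeneous (homogeneousSubmodule σ k)) (m : ℕ) :
    (J ^ m).IsHomogeneous (homogeneousSubmodule σ k) := by
  induction m with
  | zero =>
    rw [pow_zero, Ideal.one_eq_top]
    exact Ideal.IsHomogeneous.top _
  | succ m ih =>
    rw [pow_succ]
    exact ih.mul h

theorem isHomogeneous_Iv {n : ℕ} (v : Fin (n + 1) → k) :
    (Iv v).IsHomogeneous (homogeneousSubmodule (Fin (n + 1)) k) :=
  isHomogeneous_span _ (fun x hx => ⟨1, hx.1⟩)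

theorem isHomogeneous_fat {n : ℕ} {ι : Type*} (v : ι → Fin (n + 1) → k) (M : ι → ℕ) :
    (⨅ i, Iv (v i) ^ M i).IsHomogeneous (homogeneousSubmodule (Fin (n + 1)) k) :=
  Ideal.IsHomogeneous.iInf (fun i => isHomogeneous_pow (isHomogeneous_Iv (v i)) (M i))

theorem component_mem {σ : Type*} {J : Ideal (MvPolynomial σ k)}
    (h : J.IsHomogeneous (homogeneousSubmodule σ k)) {f : MvPolynomial σ k} (hf : f ∈ J) (d : ℕ) :
    homogeneousComponent d f ∈ J :=
  (mem_iff_homogeneousComponent_mem h f).1 hf d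

/-- ideal form of the Chudnovsky-Demailly bound -/
theorem demailly_ideal {n : ℕ} (hn : 1 ≤ n) {ι : Type*} [Finite ι]
    (v : ι → Fin (n + 1) → k) (hv : ∀ i, v i ≠ 0) (μ : ι → ℕ) (hμ : ∃ i, 1 ≤ μ i) (t A : ℕ)
    (hA : (⨅ i, Iv (v i) ^ (t * μ i)) ≤ idealOfVars (Fin (n + 1)) k ^ A) (r : ℕ) :
    (⨅ i, Iv (v i) ^ (r * (t + n - 1) * μ i)) ≤
      idealOfVars (Fin (n + 1)) k ^ (r * (A + n - 1)) := by
  intro F hF
  rw [mem_pow_idealOfVars_iff']
  intro x hx
  by_contra hne
  obtain ⟨i₀, hi₀⟩ := hμ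
  let ι' := {i : ι // 1 ≤ μ i}
  have : Nonempty ι' := ⟨⟨i₀, hi₀⟩⟩
  set G := homogeneousComponent x.degree F with hG
  have hGmem := component_mem (isHomogeneous_fat v _) hF x.degree
  have hG0 : G ≠ 0 := by
    intro h0
    have h1 := congrArg (coeff x) h0
    rw [hG, coeff_homogeneousComponent, if_pos rfl, coeff_zero] at h1
    exact hne h1
  have h1 := demailly hn (ι := ι') (fun i => v i.1) (fun i => hv i.1) (fun i => μ i.1)
    (fun i => i.2) t A (by
      intro d H hH hH0 hHmem
      by_contra hlt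
      push Not at hlt
      have h2 : H ∈ (⨅ i, Iv (v i) ^ (t * μ i)) := by
        rw [Ideal.mem_iInf]
        intro i
        rcases Nat.eq_zero_or_pos (μ i) with h | h
        · rw [h, mul_zero, pow_zero, Ideal.one_eq_top]
          trivial
        · exact hHmem ⟨i, h⟩
      have h3 := hA h2
      rw [mem_pow_idealOfVars_iff'] at h3
      obtain ⟨y, hy⟩ := MvPolynomial.ne_zero_iff.1 hH0
      have h4 : y.degree = d := by
        by_contra hne'
        exact hy (hH.coeff_eq_zero hne')
      exact hy (h3 y (by omega))) r x.degree (F := G) (homogeneousComponent_isHomogeneous _ _) hG0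
    (fun i => by
      rw [Ideal.mem_iInf] at hGmem
      exact hGmem i.1)
  omega

end

end Pool.Agent.Lib.Chud
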