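import Mathlib
import Pool.Agent.Lib.Chud.Ideals

set_option autoImplicit false

namespace Pool.Agent.Lib.Chud

open MvPolynomial Pool.Agent.Lib.P5c592f

section General

variable {σ : Type*} {k : Type*} [CommRing k]

theorem cmp_add {q : ℕ} {a : σ →₀ ℕ} (ha : ∀ i, a i < q) (f g : MvPolynomial σ k) :
    cmp q a (f + g) = cmp q a f + cmp q a g := by
  ext δ
  rw [coeff_add, coeff_cmp ha, coeff_cmp ha, coeff_cmp ha, coeff_add]

theorem cmp_zero {q : ℕ} {a : σ →₀ ℕ} (ha : ∀ i, a i < q) :
    cmp q a (0 : MvPolynomial σ k) = 0 := by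
  ext δ
  rw [coeff_cmp ha, coeff_zero, coeff_zero]

theorem cmp_mul_expand {q : ℕ} (hq : 0 < q) {a : σ →₀ ℕ} (ha : ∀ i, a i < q)
    (h G : MvPolynomial σ k) : cmp q a (h * expand q G) = cmp q a h * G := by
  classical
  ext δ
  rw [coeff_cmp ha]
  conv_lhs => rw [cmp_sum hq h, Finset.sum_mul]
  rw [coeff_sum]
  have hbox : ∀ b ∈ h.support.image (rmd q), ∀ i, b i < q := by
    intro b hb i
    rw [Finset.mem_image] at hb
    obtain ⟨c, _, rfl⟩ := hb
    exact rmd_lt hq c i
  have h1 : ∀ b ∈ h.support.image (rmd q),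
      coeff (a + q • δ) (monomial b (1 : k) * expand q (cmp q b h) * expand q G) =
      if b = a then coeff δ (cmp q a h * G) else 0 := by
    intro b hb
    rw [mul_assoc, ← map_mul, coeff_mul_expand hq
      (fun u hu i => coeff_monomial_box (hbox b hb) u hu i) ha, coeff_monomial]
    by_cases hba : b = a
    · simp [hba]
    · simp [hba]
  rw [Finset.sum_congr rfl h1, Finset.sum_ite_eq']
  split_ifs with h2
  · rfl
  · have h3 : cmp q a h = 0 := by
      apply cmp_eq_zero ha
      intro γ hγ hne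
      apply h2
      rw [Finset.mem_image]
      exact ⟨γ, hγ, hne⟩
    rw [h3, zero_mul, coeff_zero]

end General

section Pigeon

theorem pigeon {R : Type*} [CommRing R] {ι : Type*} (q : ℕ) (x : ι → R)
    {T : Finset ι} (hT : T.Nonempty) : Ideal.span (x '' T) ^ (T.card * q) ≤
      Ideal.span ((fun i => x i ^ q) '' T) := by
  classical
  induction hT using Finset.Nonempty.cons_induction with
  | singleton a =>
    simp [Ideal.span_singleton_pow]
  | cons a T ha hT ih =>
    rw [Finset.card_cons, Finset.coe_cons, Set.image_insert_eq,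
      Set.image_insert_eq, Ideal.span_insert, Ideal.span_insert]
    have e : (T.card + 1) * q = q + T.card * q := by ring
    rw [e]
    refine (Ideal.sup_pow_add_le_pow_sup_pow).trans (sup_le_sup ?_ ih)
    rw [Ideal.span_singleton_pow]

end Pigeon

section CharP

variable {σ : Type*} {k : Type*} [Field k] {p : ℕ} [Fact p.Prime] [CharP k p]

/-- coefficientwise Frobenius -/
noncomputable def psi (σ : Type*) (k : Type*) [Field k] (p : ℕ) [Fact p.Prime] [CharP k p]
    (e : ℕ) : MvPolynomial σ k →+* MvPolynomial σ k :=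
  MvPolynomial.map (iterateFrobenius k p e)

/-- Frobenius power of an ideal -/
noncomputable def fpow (p : ℕ) [Fact p.Prime] [CharP k p] (e : ℕ)
    (J : Ideal (MvPolynomial σ k)) : Ideal (MvPolynomial σ k) :=
  J.map (iterateFrobenius (MvPolynomial σ k) p e)

theorem expand_psi (e : ℕ) (g : MvPolynomial σ k) :
    expand (p ^ e) (psi σ k p e g) = g ^ p ^ e := by
  rw [← map_iterateFrobenius_expand, psi, map_expand]

theorem psi_injective (e : ℕ) : Function.Injective (psi σ k p e) :=
  MvPolynomial.map_injective _ (RingHom.injective _)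

theorem psi_surjective [IsAlgClosed k] (e : ℕ) : Function.Surjective (psi σ k p e) := by
  apply MvPolynomial.map_surjective
  intro c
  obtain ⟨b, hb⟩ := IsAlgClosed.exists_pow_nat_eq c (pow_pos (Fact.out (p := p.Prime)).pos e)
  exact ⟨b, by rw [iterateFrobenius_def]; exact hb⟩

theorem mem_map_psi [IsAlgClosed k] {e : ℕ} {J : Ideal (MvPolynomial σ k)}
    {y : MvPolynomial σ k} : y ∈ J.map (psi σ k p e) ↔ ∃ x ∈ J, psi σ k p e x = y :=
  Ideal.mem_map_iff_of_surjective _ (psi_surjective e)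

theorem psi_mem_map_psi [IsAlgClosed k] {e : ℕ} {J : Ideal (MvPolynomial σ k)}
    {x : MvPolynomial σ k} : psi σ k p e x ∈ J.map (psi σ k p e) ↔ x ∈ J := by
  rw [mem_map_psi]
  constructor
  · rintro ⟨y, hy, hxy⟩
    rwa [← psi_injective e hxy]
  · intro h
    exact ⟨x, h, rfl⟩

theorem mem_fpow_iff [IsAlgClosed k] {e : ℕ} {J : Ideal (MvPolynomial σ k)}
    {f : MvPolynomial σ k} : f ∈ fpow p e J ↔
      ∀ a : σ →₀ ℕ, (∀ i, a i < p ^ e) → cmp (p ^ e) a f ∈ J.map (psi σ k p e) := by
  classical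
  have hq : 0 < p ^ e := pow_pos (Fact.out (p := p.Prime)).pos e
  constructor
  · intro h a ha
    have key : ∀ c : MvPolynomial σ k, cmp (p ^ e) a (c * f) ∈ J.map (psi σ k p e) := by
      rw [fpow, Ideal.map] at h
      induction h using Submodule.span_induction with
      | mem x hx =>
        intro c
        obtain ⟨y, hy, rfl⟩ := hx
        rw [iterateFrobenius_def, ← expand_psi, cmp_mul_expand hq ha]
        exact Ideal.mul_mem_left _ _ (psi_mem_map_psi.2 hy)
      | zero => intro c; rw [mul_zero, cmp_zero ha]; exact Ideal.zero_mem _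
      | add x y _ _ hx hy =>
        intro c
        rw [mul_add, cmp_add ha]
        exact Ideal.add_mem _ (hx c) (hy c)
      | smul d x _ hx =>
        intro c
        rw [smul_eq_mul, ← mul_assoc]
        exact hx (c * d)
    simpa using key 1
  · intro h
    rw [cmp_sum hq f]
    apply Ideal.sum_mem
    intro a ha
    apply Ideal.mul_mem_left
    have hbox : ∀ i, a i < p ^ e := by
      intro i
      rw [Finset.mem_image] at ha
      obtain ⟨c, _, rfl⟩ := ha
      exact rmd_lt hq c i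
    obtain ⟨x, hx, hxa⟩ := mem_map_psi.1 (h a hbox)
    rw [← hxa, expand_psi]
    exact Ideal.mem_map_of_mem (iterateFrobenius (MvPolynomial σ k) p e) hx

theorem mem_fpow_iInf [IsAlgClosed k] {e : ℕ} {ι : Type*} [Nonempty ι]
    {J : ι → Ideal (MvPolynomial σ k)} {f : MvPolynomial σ k} (h : ∀ i, f ∈ fpow p e (J i)) :
    f ∈ fpow p e (⨅ i, J i) := by
  rw [mem_fpow_iff]
  intro a ha
  obtain ⟨x, hx⟩ := psi_surjective (σ := σ) (k := k) (p := p) e (cmp (p ^ e) a f)
  rw [← hx, psi_mem_map_psi, Ideal.mem_iInf]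
  intro i
  have h1 := mem_fpow_iff.1 (h i) a ha
  rwa [← hx, psi_mem_map_psi] at h1

theorem fpow_pow (e m : ℕ) (J : Ideal (MvPolynomial σ k)) :
    fpow p e (J ^ m) = fpow p e J ^ m := by
  rw [fpow, fpow, Ideal.map_pow]

theorem pow_le_fpow {e : ℕ} {J : Ideal (MvPolynomial σ k)} {n : ℕ} (hn : 1 ≤ n)
    (x : Fin n → MvPolynomial σ k) (hJ : J = Ideal.span (Set.range x)) (m : ℕ) :
    J ^ (p ^ e * n * m) ≤ fpow p e (J ^ m) := by
  classical
  have hne : (Finset.univ : Finset (Fin n)).Nonempty := ⟨⟨0, by omega⟩, Finset.mem_univ _⟩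
  have h1 := pigeon (p ^ e) x hne
  rw [Finset.card_univ, Fintype.card_fin, Finset.coe_univ, Set.image_univ, Set.image_univ,
    ← hJ] at h1
  have h2 : Ideal.span (Set.range fun i => x i ^ p ^ e) ≤ fpow p e J := by
    rw [Ideal.span_le]
    rintro _ ⟨i, rfl⟩
    have h3 : x i ∈ J := by
      rw [hJ]
      exact Ideal.subset_span ⟨i, rfl⟩
    exact Ideal.mem_map_of_mem (iterateFrobenius (MvPolynomial σ k) p e) h3
  rw [fpow_pow, mul_comm (p ^ e) n, pow_mul]
  exact Ideal.pow_right_mono (h1.trans h2) m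

/-- cancellation: `c F^q` in Frobenius powers of `J` for one large `q` puts `F` in `J` -/
theorem mem_of_mul_pow_mem [IsAlgClosed k] {e : ℕ} {J : Ideal (MvPolynomial σ k)}
    {c F : MvPolynomial σ k} (hc : c ≠ 0) (hq : c.totalDegree < p ^ e)
    (h : c * F ^ p ^ e ∈ fpow p e J) : F ∈ J := by
  classical
  have hq0 : 0 < p ^ e := pow_pos (Fact.out (p := p.Prime)).pos e
  obtain ⟨a, ha⟩ := MvPolynomial.ne_zero_iff.1 hc
  have hbox : ∀ b, coeff b c ≠ 0 → ∀ i, b i < p ^ e := by
    intro b hb i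
    exact lt_of_le_of_lt ((Finsupp.le_degree i b).trans (degree_le_of_coeff_ne hb)) hq
  have h1 := mem_fpow_iff.1 h a (hbox a ha)
  rw [← expand_psi, cmp_mul_expand hq0 (hbox a ha)] at h1
  have h2 : cmp (p ^ e) a c = C (coeff a c) := by
    ext δ
    rw [coeff_cmp (hbox a ha), coeff_C]
    by_cases hδ : 0 = δ
    · rw [if_pos hδ, ← hδ, smul_zero, add_zero]
    · rw [if_neg hδ]
      by_contra hne
      have h3 := hbox _ hne
      apply hδ
      ext i
      have h4 := h3 i
      simp only [Finsupp.coe_add, Finsupp.coe_smul, Pi.add_apply, Pi.smul_apply,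
        smul_eq_mul] at h4
      by_contra h5
      have h6 : 1 ≤ δ i := by
        rw [Finsupp.coe_zero, Pi.zero_apply] at h5
        omega
      have h7 : p ^ e * 1 ≤ p ^ e * δ i := Nat.mul_le_mul_left _ h6
      omega
  rw [h2] at h1
  have h3 := Ideal.mul_mem_left _ (C (coeff a c)⁻¹) h1
  rw [← mul_assoc, ← C_mul, inv_mul_cancel₀ ha, C_1, one_mul, psi_mem_map_psi] at h3
  exact h3

/-- a Hochster-Huneke type containment for intersections of powers of ideals generated by `n`
elements, in characteristic `p` -/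
theorem symb_le_pow (p : ℕ) [Fact p.Prime] [CharP k p] [IsAlgClosed k] {ι : Type*} [Nonempty ι] {n : ℕ} (hn : 1 ≤ n)
    (J : ι → Ideal (MvPolynomial σ k))
    (x : ι → Fin n → MvPolynomial σ k) (hJ : ∀ i, J i = Ideal.span (Set.range (x i)))
    (μ : ι → ℕ) (r : ℕ) :
    (⨅ i, J i ^ (r * n * μ i)) ≤ (⨅ i, J i ^ μ i) ^ r := by
  intro F hF
  rcases Nat.eq_zero_or_pos r with rfl | hr
  · rw [pow_zero, Ideal.one_eq_top]; trivial
  by_cases hF0 : F = 0
  · rw [hF0]; exact Ideal.zero_mem _
  set c : MvPolynomial σ k := F ^ (r - 1) with hc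
  set e : ℕ := c.totalDegree + 1 with he
  have hqe : e < p ^ e := Nat.lt_pow_self (Fact.out (p := p.Prime)).one_lt
  have hq : c.totalDegree < p ^ e := by omega
  apply mem_of_mul_pow_mem (p := p) (e := e) (c := c) (pow_ne_zero _ hF0) hq
  set q := p ^ e with hqdef
  set s := (q + r - 1) / r with hs
  have hs1 : q ≤ s * r := by
    have h1 := Nat.lt_div_mul_add (a := q + r - 1) hr
    rw [← hs] at h1
    omega
  have hs2 : s * r ≤ q + r - 1 := Nat.div_mul_le_self _ _
  have h1 : F ^ s ∈ fpow p e (⨅ i, J i ^ μ i) := by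
    apply mem_fpow_iInf
    intro i
    apply pow_le_fpow hn (x i) (hJ i) (μ i)
    rw [Ideal.mem_iInf] at hF
    have h2 := Ideal.pow_mem_pow (hF i) s
    rw [← pow_mul] at h2
    refine Ideal.pow_le_pow_right ?_ h2
    calc p ^ e * n * μ i ≤ (s * r) * n * μ i :=
          Nat.mul_le_mul_right _ (Nat.mul_le_mul_right _ hs1)
      _ = r * n * μ i * s := by ring
  have h2 : (F ^ s) ^ r ∈ fpow p e ((⨅ i, J i ^ μ i) ^ r) := by
    rw [fpow_pow]
    exact Ideal.pow_mem_pow h1 r
  have h3 : c * F ^ p ^ e = F ^ (q + r - 1 - s * r) * (F ^ s) ^ r := by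
    rw [hc, ← pow_mul, ← pow_add, ← pow_add]
    congr 1
    omega
  rw [h3]
  exact Ideal.mul_mem_left _ _ h2

end CharP

end Pool.Agent.Lib.Chud
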